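import Pool.Agent.MP_954c34_an.Defs
import Mathlib

section

open MeasureTheory Set Filter Topology
open scoped ContDiff

noncomputable section

namespace Pool.Agent.MP_954c34_an

variable {X : Type} [NormedAddCommGroup X] [NormedSpace ℝ X]

lemma eq_zero_of_tsupport_subset {φ : ℝ → ℝ} {T t : ℝ} (h : tsupport φ ⊆ Ioo 0 T)
    (ht : t ∉ Ioo 0 T) : φ t = 0 :=
  image_eq_zero_of_notMem_tsupport (fun h' => ht (h h'))

/-- A `C¹` function has its derivative as weak derivative. -/
lemma hasWeakDeriv_of_hasDerivAt [CompleteSpace X] {T : ℝ} (hT : 0 < T) {u g : ℝ → X}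
    (hu : ∀ t, HasDerivAt u (g t) t) (hg : Continuous g) : HasWeakDeriv T u g := by
  intro φ hφ _ hsupp
  have hφd : ∀ t, HasDerivAt φ (deriv φ t) t := fun t =>
    (hφ.differentiable (by simp) t).hasDerivAt
  have hφc : Continuous (deriv φ) := hφ.continuous_deriv (by simp)
  have h := intervalIntegral.integral_smul_deriv_eq_deriv_smul (a := 0) (b := T)
    (u := φ) (v := u) (u' := deriv φ) (v' := g) (fun t _ => hφd t) (fun t _ => hu t)
    (hφc.intervalIntegrable _ _) (hg.intervalIntegrable _ _)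
  rw [eq_zero_of_tsupport_subset hsupp (t := T) (by simp),
    eq_zero_of_tsupport_subset hsupp (t := 0) (by simp), intervalIntegral.integral_of_le hT.le,
    intervalIntegral.integral_of_le hT.le, integral_Ioc_eq_integral_Ioo,
    integral_Ioc_eq_integral_Ioo] at h
  rw [h]
  simp

lemma MemL2.integrableOn {T : ℝ} {u : ℝ → X} (h : MemL2 T u) : IntegrableOn u (Ioo 0 T) :=
  MemLp.integrable (by norm_num) h

lemma memL2_of_continuous {T : ℝ} {u : ℝ → X} (h : Continuous u) : MemL2 T u := by
  obtain ⟨C, hC⟩ := (isCompact_Icc (a := (0 : ℝ)) (b := T)).exists_bound_of_continuousOn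
    h.continuousOn
  refine MemLp.of_bound h.aestronglyMeasurable C ?_
  filter_upwards [ae_restrict_mem measurableSet_Ioo] with t ht
  exact hC t (Ioo_subset_Icc_self ht)

lemma integrableOn_smul_of_continuous {𝕜 : Type*} [NormedField 𝕜] [NormedSpace 𝕜 X]
    [SecondCountableTopology 𝕜] {T : ℝ} {φ : ℝ → 𝕜} {u : ℝ → X}
    (hφ : Continuous φ) (hu : IntegrableOn u (Ioo 0 T)) :
    IntegrableOn (fun t => φ t • u t) (Ioo 0 T) := by
  obtain ⟨C, hC⟩ := (isCompact_Icc (a := (0 : ℝ)) (b := T)).exists_bound_of_continuousOn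
    hφ.continuousOn
  refine Integrable.mono' (hu.norm.const_mul C) (hφ.aestronglyMeasurable.smul hu.1) ?_
  filter_upwards [ae_restrict_mem measurableSet_Ioo] with t ht
  rw [norm_smul]
  exact mul_le_mul_of_nonneg_right (hC t (Ioo_subset_Icc_self ht)) (norm_nonneg _)

lemma HasWeakDeriv.sub {T : ℝ} {u g v h : ℝ → X} (h1 : HasWeakDeriv T u g)
    (h2 : HasWeakDeriv T v h) (hu : IntegrableOn u (Ioo 0 T)) (hg : IntegrableOn g (Ioo 0 T))
    (hv : IntegrableOn v (Ioo 0 T)) (hh : IntegrableOn h (Ioo 0 T)) :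
    HasWeakDeriv T (fun t => u t - v t) (fun t => g t - h t) := by
  intro φ hφ hc hsupp
  have hφc : Continuous (deriv φ) := hφ.continuous_deriv (by simp)
  simp only [smul_sub]
  rw [integral_sub (integrableOn_smul_of_continuous hφc hu)
      (integrableOn_smul_of_continuous hφc hv),
    integral_sub (integrableOn_smul_of_continuous hφ.continuous hg)
      (integrableOn_smul_of_continuous hφ.continuous hh), h1 φ hφ hc hsupp, h2 φ hφ hc hsupp]
  abel

lemma HasWeakDeriv.congr_left {T : ℝ} {u v g : ℝ → X} (h1 : HasWeakDeriv T u g)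
    (h : u =ᵐ[volume.restrict (Ioo 0 T)] v) : HasWeakDeriv T v g := by
  intro φ hφ hc hsupp
  rw [← h1 φ hφ hc hsupp]
  refine integral_congr_ae ?_
  filter_upwards [h] with t ht
  rw [ht]

/-- The primitive of an integrable function has it as weak derivative. -/
lemma hasWeakDeriv_primitive [CompleteSpace X] {T : ℝ} {g : ℝ → X}
    (hg : IntegrableOn g (Ioo 0 T)) :
    HasWeakDeriv T (fun t => ∫ s in Ioo 0 t, g s) g := by
  intro φ hφ _ hsupp
  have hφd : ∀ t, HasDerivAt φ (deriv φ t) t := fun t =>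
    (hφ.differentiable (by simp) t).hasDerivAt
  have hφc : Continuous (deriv φ) := hφ.continuous_deriv (by simp)
  set ν : Measure ℝ := volume.restrict (Ioo 0 T) with hν
  set F : ℝ → ℝ → X := fun t s => ({p : ℝ × ℝ | p.2 < p.1}.indicator
    (fun p => deriv φ p.1) (t, s)) • g s with hF
  have hmeas : MeasurableSet {p : ℝ × ℝ | p.2 < p.1} := measurableSet_lt measurable_snd measurable_fst
  obtain ⟨C, hC⟩ := (isCompact_Icc (a := (0 : ℝ)) (b := T)).exists_bound_of_continuousOn
    hφc.continuousOn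
  have hint : Integrable (Function.uncurry F) (ν.prod ν) := by
    have h1 : Integrable (fun p : ℝ × ℝ => deriv φ p.1 • g p.2) (ν.prod ν) :=
      Integrable.smul_prod (f := deriv φ) (g := g)
        (hφc.continuousOn.integrableOn_Icc.mono_set Ioo_subset_Icc_self) hg
    refine (h1.indicator hmeas).congr (Eventually.of_forall fun p => ?_)
    by_cases hp : p ∈ {p : ℝ × ℝ | p.2 < p.1}
    · simp only [hF, Function.uncurry, indicator_of_mem hp]
    · simp only [hF, Function.uncurry, indicator_of_notMem hp, zero_smul]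
  have hswap := integral_integral_swap hint
  have hL : ∫ t, ∫ s, F t s ∂ν ∂ν = ∫ t in Ioo 0 T, deriv φ t • ∫ s in Ioo 0 t, g s := by
    refine setIntegral_congr_fun measurableSet_Ioo fun t ht => ?_
    have : (fun s => F t s) = fun s => deriv φ t • (Iio t).indicator g s := by
      funext s
      by_cases hs : s < t
      · simp [hF, indicator_of_mem, hs]
      · simp [hF, indicator_of_notMem, hs]
    simp only [this]
    rw [integral_smul, integral_indicator measurableSet_Iio, hν,
      Measure.restrict_restrict measurableSet_Iio]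
    congr 3
    ext s
    simp only [mem_inter_iff, mem_Iio, mem_Ioo]
    constructor
    · rintro ⟨h1, h2, _⟩
      exact ⟨h2, h1⟩
    · rintro ⟨h1, h2⟩
      exact ⟨h2, h1, h2.trans ht.2⟩
  have hR : ∫ s, ∫ t, F t s ∂ν ∂ν = ∫ s in Ioo 0 T, -(φ s • g s) := by
    refine setIntegral_congr_fun measurableSet_Ioo fun s hs => ?_
    have : (fun t => F t s) = fun t => ((Ioi s).indicator (deriv φ) t) • g s := by
      funext t
      by_cases ht : s < t
      · simp [hF, indicator_of_mem, ht]
      · simp [hF, indicator_of_notMem, ht]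
    simp only [this]
    rw [integral_smul_const, integral_indicator measurableSet_Ioi, hν,
      Measure.restrict_restrict measurableSet_Ioi]
    have e : Ioi s ∩ Ioo 0 T = Ioo s T := by
      ext t
      simp only [mem_inter_iff, mem_Ioi, mem_Ioo]
      constructor
      · rintro ⟨h1, _, h2⟩
        exact ⟨h1, h2⟩
      · rintro ⟨h1, h2⟩
        exact ⟨h1, hs.1.trans h1, h2⟩
    rw [e, ← integral_Ioc_eq_integral_Ioo, ← intervalIntegral.integral_of_le hs.2.le,
      intervalIntegral.integral_eq_sub_of_hasDerivAt (fun t _ => hφd t)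
        (hφc.intervalIntegrable _ _), eq_zero_of_tsupport_subset hsupp (t := T) (by simp)]
    simp
  rw [← hL, hswap, hR, integral_neg]

end Pool.Agent.MP_954c34_an

end
end

section

open MeasureTheory Set Filter Topology
open scoped ContDiff

noncomputable section

namespace Pool.Agent.MP_954c34_an

variable {X : Type} [NormedAddCommGroup X] [NormedSpace ℝ X]

/-- A bump function in the middle of `(0, T)`. -/
def midBump {T : ℝ} (hT : 0 < T) : ContDiffBump (T / 2) :=
  ⟨T / 8, T / 4, by positivity, by linarith⟩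

lemma closedBall_midBump {T : ℝ} (hT : 0 < T) :
    Metric.closedBall (T / 2) (midBump hT).rOut ⊆ Ioo 0 T := by
  intro t ht
  rw [Real.closedBall_eq_Icc] at ht
  simp only [midBump] at ht
  constructor <;> linarith [ht.1, ht.2]

lemma setIntegral_smul_eq_integral {T : ℝ} {φ : ℝ → ℝ} (h : tsupport φ ⊆ Ioo 0 T) (u : ℝ → X) :
    ∫ t in Ioo 0 T, φ t • u t = ∫ t, φ t • u t :=
  setIntegral_eq_integral_of_forall_compl_eq_zero fun t ht => by
    rw [eq_zero_of_tsupport_subset h ht, zero_smul]

lemma eq_const_of_hasWeakDeriv_zero [CompleteSpace X] {T : ℝ} (hT : 0 < T) {z : ℝ → X}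
    (hz : ContinuousOn z (Icc 0 T)) (h : HasWeakDeriv T z (fun _ => 0)) :
    ∀ t ∈ Icc 0 T, z t = z 0 := by
  set ψ₀ : ℝ → ℝ := (midBump hT).normed volume with hψ₀
  have hψ₀s : tsupport ψ₀ ⊆ Ioo 0 T := by
    rw [hψ₀, ContDiffBump.tsupport_normed_eq]
    exact closedBall_midBump hT
  have hψ₀d : ContDiff ℝ ∞ ψ₀ := (midBump hT).contDiff_normed
  have hψ₀c : HasCompactSupport ψ₀ := (midBump hT).hasCompactSupport_normed
  have hψ₀i : ∫ t, ψ₀ t = 1 := (midBump hT).integral_normed
  have hzi : IntegrableOn z (Ioo 0 T) := hz.integrableOn_Icc.mono_set Ioo_subset_Icc_self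
  set c : X := ∫ t in Ioo 0 T, ψ₀ t • z t with hc
  have key : ∀ ψ : ℝ → ℝ, ContDiff ℝ ∞ ψ → HasCompactSupport ψ → tsupport ψ ⊆ Ioo 0 T →
      ∫ t, ψ t • (z t - c) = 0 := by
    intro ψ hψ hψc hψs
    set m : ℝ := ∫ t, ψ t with hm
    set θ : ℝ → ℝ := fun t => ψ t - m * ψ₀ t with hθ
    have hθd : ContDiff ℝ ∞ θ := hψ.sub (contDiff_const.mul hψ₀d)
    have hθc : Continuous θ := hθd.continuous
    have hψi : Integrable ψ := hψ.continuous.integrable_of_hasCompactSupport hψc
    have hψ₀int : Integrable ψ₀ := hψ₀d.continuous.integrable_of_hasCompactSupport hψ₀c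
    have hθi : ∫ t, θ t = 0 := by
      rw [hθ, integral_sub hψi (hψ₀int.const_mul m), integral_const_mul, hψ₀i]
      simp [hm]
    have hK : IsCompact (tsupport ψ ∪ tsupport ψ₀) := IsCompact.union hψc hψ₀c
    have hKne : (tsupport ψ ∪ tsupport ψ₀).Nonempty := by
      refine ⟨T / 2, Or.inr ?_⟩
      rw [hψ₀, ContDiffBump.tsupport_normed_eq]
      exact Metric.mem_closedBall_self (midBump hT).rOut_pos.le
    obtain ⟨a, ha⟩ := hK.exists_isLeast hKne
    obtain ⟨b, hb⟩ := hK.exists_isGreatest hKne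
    have hsub : tsupport ψ ∪ tsupport ψ₀ ⊆ Ioo 0 T := union_subset hψs hψ₀s
    have ha' := hsub ha.1
    have hb' := hsub hb.1
    have hθ0 : ∀ t, t ∉ Icc a b → θ t = 0 := by
      intro t ht
      have h1 : t ∉ tsupport ψ ∪ tsupport ψ₀ := fun h' => ht ⟨ha.2 h', hb.2 h'⟩
      rw [mem_union, not_or] at h1
      simp [hθ, image_eq_zero_of_notMem_tsupport h1.1, image_eq_zero_of_notMem_tsupport h1.2]
    set φ : ℝ → ℝ := fun t => ∫ s in (0 : ℝ)..t, θ s with hφ
    have hφderiv : deriv φ = θ := by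
      funext t
      exact Continuous.deriv_integral θ hθc 0 t
    have hφd : ContDiff ℝ ∞ φ := by
      rw [contDiff_infty_iff_deriv, hφderiv]
      exact ⟨fun t => (hθc.integral_hasStrictDerivAt 0 t).hasDerivAt.differentiableAt, hθd⟩
    have hφ0 : ∀ t, t ∉ Icc a b → φ t = 0 := by
      intro t ht
      rw [mem_Icc, not_and_or, not_le, not_le] at ht
      rcases ht with ht | ht
      · simp only [hφ]
        rw [intervalIntegral.integral_congr (g := fun _ => 0)]
        · simp
        · intro s hs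
          apply hθ0
          rw [mem_Icc, not_and_or, not_le, not_le]
          left
          rcases mem_uIcc.1 hs with h1 | h1 <;> linarith [h1.2, ha'.1]
      · simp only [hφ]
        rw [intervalIntegral.integral_of_le (by linarith [hb'.1]),
          setIntegral_eq_integral_of_forall_compl_eq_zero, hθi]
        intro s hs
        apply hθ0
        intro hs'
        exact hs ⟨by linarith [hs'.1, ha'.1], by linarith [hs'.2]⟩
    have hφs : tsupport φ ⊆ Icc a b :=
      closure_minimal (fun t ht => by_contra fun h' => ht (hφ0 t h')) isClosed_Icc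
    have hφs' : tsupport φ ⊆ Ioo 0 T := hφs.trans (Icc_subset_Ioo ha'.1 hb'.2)
    have hφc : HasCompactSupport φ := isCompact_Icc.of_isClosed_subset (isClosed_tsupport _) hφs
    have h1 := h φ hφd hφc hφs'
    rw [hφderiv] at h1
    simp only [smul_zero, integral_zero, neg_zero, hθ, sub_smul, mul_smul] at h1
    have hi2 : Integrable (fun t => m • ψ₀ t • z t) (volume.restrict (Ioo 0 T)) :=
      (integrableOn_smul_of_continuous hψ₀d.continuous hzi).smul m
    rw [integral_sub (integrableOn_smul_of_continuous hψ.continuous hzi) hi2,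
      integral_smul, ← hc] at h1
    rw [← setIntegral_smul_eq_integral hψs]
    simp only [smul_sub]
    rw [integral_sub (integrableOn_smul_of_continuous hψ.continuous hzi)
      (hψi.integrableOn.smul_const c), setIntegral_smul_eq_integral hψs (fun _ => c),
      integral_smul_const]
    exact h1
  have hloc : LocallyIntegrableOn (fun t => z t - c) (Ioo 0 T) volume :=
    ((hz.mono Ioo_subset_Icc_self).sub continuousOn_const).locallyIntegrableOn measurableSet_Ioo
  have hae := isOpen_Ioo.ae_eq_zero_of_integral_contDiff_smul_eq_zero hloc key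
  have hae' : z =ᵐ[volume.restrict (Icc 0 T)] fun _ => c := by
    rw [← Measure.restrict_congr_set Ioo_ae_eq_Icc]
    filter_upwards [ae_restrict_of_ae hae, ae_restrict_mem measurableSet_Ioo] with t h1 h2
    exact sub_eq_zero.1 (h1 h2)
  have heq := Measure.eqOn_Icc_of_ae_eq volume hT.ne hae' hz continuousOn_const
  intro t ht
  rw [heq ht, heq (left_mem_Icc.2 hT.le)]

/-- A function with weak derivative `g` and vanishing at `0` is the primitive of `g`. -/
lemma ae_eq_primitive [CompleteSpace X] {T : ℝ} (hT : 0 < T) {u g : ℝ → X}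
    (hg : IntegrableOn g (Ioo 0 T)) (h : HasWeakDeriv T u g) (h0 : VanishesAtZero T u) :
    u =ᵐ[volume.restrict (Ioo 0 T)] fun t => ∫ s in Ioo 0 t, g s := by
  obtain ⟨w, hw, hwu, hw0⟩ := h0
  have hg' : IntegrableOn g (Icc 0 T) := (integrableOn_Icc_iff_integrableOn_Ioo).2 hg
  have hP : ContinuousOn (fun t => ∫ s in Ioo 0 t, g s) (Icc 0 T) := by
    have := intervalIntegral.continuousOn_primitive hg'
    simpa only [integral_Ioc_eq_integral_Ioo] using this
  have hwi : IntegrableOn w (Ioo 0 T) := hw.integrableOn_Icc.mono_set Ioo_subset_Icc_self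
  have hPi : IntegrableOn (fun t => ∫ s in Ioo 0 t, g s) (Ioo 0 T) :=
    hP.integrableOn_Icc.mono_set Ioo_subset_Icc_self
  have h1 := (h.congr_left hwu.symm).sub (hasWeakDeriv_primitive hg) hwi hg hPi hg
  simp only [sub_self] at h1
  have h2 := eq_const_of_hasWeakDeriv_zero hT (hw.sub hP) h1
  filter_upwards [hwu, ae_restrict_mem measurableSet_Ioo] with t ht ht'
  have := h2 t (Ioo_subset_Icc_self ht')
  simp only [Pi.sub_apply, hw0, Ioo_self, Measure.restrict_empty, integral_zero_measure,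
    sub_zero] at this
  rw [← ht]
  exact sub_eq_zero.1 this

end Pool.Agent.MP_954c34_an

end
end

section

open MeasureTheory Set Filter Topology

noncomputable section

namespace Pool.Agent.MP_954c34_an

/-- Translation by `r` as a continuous map. -/
def shiftMap : C(ℝ, C(ℝ, ℝ)) :=
  ContinuousMap.curry ⟨fun p : ℝ × ℝ => p.2 + p.1, by fun_prop⟩

lemma shiftMap_measurePreserving (r : ℝ) : MeasurePreserving (shiftMap r) volume volume :=
  measurePreserving_add_right volume r

/-- Translation on `L²(ℝ; E)`. -/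
def shiftL2 {E : Type} [NormedAddCommGroup E] (f : Lp E 2 (volume : Measure ℝ)) (r : ℝ) :
    Lp E 2 (volume : Measure ℝ) :=
  Lp.compMeasurePreserving (shiftMap r) (shiftMap_measurePreserving r) f

lemma continuous_shiftL2 {E : Type} [NormedAddCommGroup E] (f : Lp E 2 (volume : Measure ℝ)) :
    Continuous (shiftL2 f) :=
  Continuous.compMeasurePreservingLp continuous_const shiftMap.continuous
    shiftMap_measurePreserving (by simp)

lemma coeFn_shiftL2 {E : Type} [NormedAddCommGroup E] (f : Lp E 2 (volume : Measure ℝ)) (r : ℝ) :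
    shiftL2 f r =ᵐ[volume] fun t => f (t + r) :=
  Lp.coeFn_compMeasurePreserving f (shiftMap_measurePreserving r)

variable {V W : Type} [NormedAddCommGroup V] [NormedSpace ℝ V] [NormedAddCommGroup W]
  [NormedSpace ℝ W] [CompleteSpace W]

lemma energy_aux (B : W →L[ℝ] V →L[ℝ] ℝ) (J : V →L[ℝ] W) (hsymm : ∀ a b, B (J a) b = B (J b) a)
    (hpos : ∀ a, 0 ≤ B (J a) a) {T τ : ℝ} (hτ : τ < T) (w : Lp V 2 (volume : Measure ℝ))
    (g : Lp W 2 (volume : Measure ℝ)) (hgi : Integrable g)
    (hy : ∀ᵐ t, t < T → J (w t) = ∫ s in Iic t, g s) :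
    0 ≤ ∫ t in Iic τ, B (g t) (w t) := by
  set ν : Measure ℝ := volume.restrict (Iic τ) with hν
  set RW := LpToLpRestrictCLM ℝ W ℝ volume 2 (Iic τ) with hRW
  set RV := LpToLpRestrictCLM ℝ V ℝ volume 2 (Iic τ) with hRV
  set Φ : ℝ × ℝ → ℝ := fun p =>
    B.lpPairing ν 2 2 (RW (shiftL2 g p.1)) (RV (shiftL2 w p.2 + w)) with hΦ
  have hΦc : Continuous Φ := by
    have h1 : Continuous fun p : ℝ × ℝ => RW (shiftL2 g p.1) :=
      RW.continuous.comp ((continuous_shiftL2 g).comp continuous_fst)
    have h2 : Continuous fun p : ℝ × ℝ => RV (shiftL2 w p.2 + w) :=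
      RV.continuous.comp (((continuous_shiftL2 w).comp continuous_snd).add continuous_const)
    exact ((B.lpPairing ν 2 2).continuous.comp h1).clm_apply h2
  have hΦe : ∀ r h : ℝ, Φ (r, h) = ∫ t in Iic τ, B (g (t + r)) (w (t + h) + w t) := by
    intro r h
    simp only [hΦ]
    rw [ContinuousLinearMap.lpPairing_eq_integral]
    refine integral_congr_ae ?_
    filter_upwards [LpToLpRestrictCLM_coeFn ℝ (Iic τ) (shiftL2 g r),
      LpToLpRestrictCLM_coeFn ℝ (Iic τ) (shiftL2 w h + w),
      ae_restrict_of_ae (coeFn_shiftL2 g r), ae_restrict_of_ae (coeFn_shiftL2 w h),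
      ae_restrict_of_ae (Lp.coeFn_add (shiftL2 w h) w)] with t h1 h2 h3 h4 h5
    rw [h1, h2, h3, h5, Pi.add_apply, h4]
  have hΦ0 : Φ (0, 0) = 2 * ∫ t in Iic τ, B (g t) (w t) := by
    rw [hΦe, ← integral_const_mul]
    refine integral_congr_ae (Eventually.of_forall fun t => ?_)
    simp only [add_zero, map_add]
    ring
  by_contra hneg
  have hneg' : Φ (0, 0) < 0 := by
    rw [hΦ0]
    linarith [not_le.1 hneg]
  obtain ⟨δ, hδ, hball⟩ := Metric.eventually_nhds_iff.1
    (hΦc.continuousAt.eventually_lt continuousAt_const hneg')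
  set h : ℝ := min (δ / 2) ((T - τ) / 2) with hh
  have h0 : 0 < h := lt_min (by positivity) (by linarith)
  have h1 : h < δ := (min_le_left _ _).trans_lt (by linarith)
  have h2 : τ + h < T := by
    have : h ≤ (T - τ) / 2 := min_le_right _ _
    linarith
  have hlt : 0 < ∫ r in (0 : ℝ)..h, -Φ (r, h) := by
    refine intervalIntegral.intervalIntegral_pos_of_pos_on
      ((hΦc.comp (continuous_id.prodMk continuous_const)).neg.intervalIntegrable _ _)
      (fun r hr => ?_) h0
    have : dist (r, h) ((0 : ℝ), (0 : ℝ)) < δ := by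
      rw [Prod.dist_eq, max_lt_iff]
      simp only [dist_zero_right, Real.norm_eq_abs]
      rw [abs_of_pos hr.1, abs_of_pos h0]
      exact ⟨hr.2.trans h1, h1⟩
    linarith [hball this]
  rw [intervalIntegral.integral_neg] at hlt
  -- the quadratic quantity
  set N : ℝ → ℝ := fun t => B (J (w t)) (w t) with hN
  have hw2 : Integrable fun t => ‖w t‖ ^ 2 := (Lp.memLp w).integrable_norm_pow (by norm_num)
  have hg2 : Integrable fun t => ‖g t‖ ^ 2 := (Lp.memLp g).integrable_norm_pow (by norm_num)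
  have hwm := Lp.stronglyMeasurable w
  have hgm := Lp.stronglyMeasurable g
  have hNi : Integrable N := by
    refine Integrable.mono' (hw2.const_mul (‖B‖ * ‖J‖)) ?_ (Eventually.of_forall fun t => ?_)
    · exact (B.continuous₂.comp_stronglyMeasurable
        ((J.continuous.comp_stronglyMeasurable hwm).prodMk hwm)).aestronglyMeasurable
    · calc ‖B (J (w t)) (w t)‖ ≤ ‖B‖ * ‖J (w t)‖ * ‖w t‖ := B.le_opNorm₂ _ _
        _ ≤ ‖B‖ * (‖J‖ * ‖w t‖) * ‖w t‖ := by gcongr; exact J.le_opNorm _
        _ = ‖B‖ * ‖J‖ * ‖w t‖ ^ 2 := by ring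
  have hNsh : Integrable fun t => N (t + h) := hNi.comp_add_right h
  have hge : 0 ≤ ∫ t in Iic τ, (N (t + h) - N t) := by
    rw [integral_sub hNsh.integrableOn hNi.integrableOn]
    have e : ∫ t in Iic τ, N (t + h) = ∫ t in Iic (τ + h), N t := by
      have := (measurePreserving_add_right volume h).setIntegral_preimage_emb
        (measurableEmbedding_addRight h) N (Iic (τ + h))
      rw [← this]
      congr 2
      ext t
      simp
    rw [e, sub_nonneg]
    exact setIntegral_mono_set hNi.integrableOn (Eventually.of_forall fun t => hpos _)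
      (Iic_subset_Iic.2 (by linarith)).eventuallyLE
  -- Fubini
  set ρ : Measure ℝ := volume.restrict (Ioc 0 h) with hρ
  set Z : ℝ → V := fun t => w (t + h) + w t with hZ
  have hZ2 : MemLp Z 2 volume :=
    ((Lp.memLp w).comp_measurePreserving (measurePreserving_add_right volume h)).add (Lp.memLp w)
  have hZm : StronglyMeasurable Z := (hwm.comp_measurable (measurable_add_const h)).add hwm
  have hint : Integrable (Function.uncurry fun t r => B (g (t + r)) (Z t)) (ν.prod ρ) := by
    rw [hν, Measure.restrict_prod_eq_prod_univ]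
    refine Integrable.integrableOn ?_
    have i1 : Integrable (fun p : ℝ × ℝ => ‖g (p.1 + p.2)‖ ^ 2) ((volume : Measure ℝ).prod ρ) :=
      (measurePreserving_prod_add_swap_right (volume : Measure ℝ) ρ).integrable_comp_of_integrable
        (hg2.comp_snd ρ)
    have i2 : Integrable (fun p : ℝ × ℝ => ‖Z p.1‖ ^ 2) ((volume : Measure ℝ).prod ρ) :=
      (hZ2.integrable_norm_pow (by norm_num)).comp_fst ρ
    refine Integrable.mono' ((i1.add i2).const_mul ‖B‖) ?_ (Eventually.of_forall fun p => ?_)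
    · exact (B.continuous₂.comp_stronglyMeasurable
        ((hgm.comp_measurable measurable_add).prodMk
          (hZm.comp_measurable measurable_fst))).aestronglyMeasurable
    · calc ‖B (g (p.1 + p.2)) (Z p.1)‖ ≤ ‖B‖ * ‖g (p.1 + p.2)‖ * ‖Z p.1‖ := B.le_opNorm₂ _ _
        _ = ‖B‖ * (‖g (p.1 + p.2)‖ * ‖Z p.1‖) := by ring
        _ ≤ ‖B‖ * (‖g (p.1 + p.2)‖ ^ 2 + ‖Z p.1‖ ^ 2) := by
          gcongr
          nlinarith [sq_nonneg (‖g (p.1 + p.2)‖ - ‖Z p.1‖), norm_nonneg (g (p.1 + p.2)),
            norm_nonneg (Z p.1)]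
  have hswap := integral_integral_swap hint
  have hR : ∫ r, ∫ t, B (g (t + r)) (Z t) ∂ν ∂ρ = ∫ r in (0 : ℝ)..h, Φ (r, h) := by
    rw [intervalIntegral.integral_of_le h0.le]
    simp only [hΦe, hρ, hν, hZ]
  have hL : ∫ t, ∫ r, B (g (t + r)) (Z t) ∂ρ ∂ν = ∫ t in Iic τ, (N (t + h) - N t) := by
    refine integral_congr_ae ?_
    have hy' : ∀ᵐ t, t + h < T → J (w (t + h)) = ∫ s in Iic (t + h), g s :=
      (measurePreserving_add_right volume h).quasiMeasurePreserving.ae hy
    filter_upwards [ae_restrict_of_ae hy, ae_restrict_of_ae hy', ae_restrict_mem measurableSet_Iic]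
      with t ht ht' htτ
    have htτ' : t ≤ τ := htτ
    have e1 := ht (by linarith)
    have e2 := ht' (by linarith)
    have e3 : J (w (t + h)) - J (w t) = ∫ r in (0 : ℝ)..h, g (t + r) := by
      rw [e1, e2, intervalIntegral.integral_Iic_sub_Iic hgi.integrableOn hgi.integrableOn,
        intervalIntegral.integral_comp_add_left (fun s => g s) t, add_zero]
    have e4 := (B.flip (Z t)).intervalIntegral_comp_comm (μ := volume) (a := 0) (b := h)
      (f := fun r => g (t + r)) (hgi.comp_add_left t).intervalIntegrable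
    rw [← e3, intervalIntegral.integral_of_le h0.le] at e4
    simp only [ContinuousLinearMap.flip_apply] at e4
    rw [hρ, e4]
    simp only [hZ, hN, map_sub, map_add, sub_apply]
    rw [hsymm (w t) (w (t + h))]
    ring
  rw [hL, hR] at hswap
  linarith

/-- The energy inequality. -/
lemma energy (B : W →L[ℝ] V →L[ℝ] ℝ) (J : V →L[ℝ] W) (hsymm : ∀ a b, B (J a) b = B (J b) a)
    (hpos : ∀ a, 0 ≤ B (J a) a) {T τ : ℝ} (hτ : τ < T) {w : ℝ → V} {g : ℝ → W}
    (hw : MemL2 T w) (hg : MemL2 T g)
    (hy : (fun t => J (w t)) =ᵐ[volume.restrict (Ioo 0 T)] fun t => ∫ s in Ioo 0 t, g s) :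
    0 ≤ ∫ t in Ioo 0 τ, B (g t) (w t) := by
  have hw' : MemLp ((Ioo 0 T).indicator w) 2 volume :=
    (memLp_indicator_iff_restrict measurableSet_Ioo).2 hw
  have hg' : MemLp ((Ioo 0 T).indicator g) 2 volume :=
    (memLp_indicator_iff_restrict measurableSet_Ioo).2 hg
  have hgi : Integrable ((Ioo 0 T).indicator g) :=
    (integrable_indicator_iff measurableSet_Ioo).2 hg.integrableOn
  have hinter : ∀ t, t < T → (Ioo 0 T ∩ Iic t : Set ℝ) =ᵐ[volume] (Ioo 0 t : Set ℝ) := by
    intro t ht
    suffices hs : (Ioo 0 T ∩ Iic t : Set ℝ) = Ioc 0 t by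
      rw [hs]
      exact (Ioo_ae_eq_Ioc (a := 0) (b := t)).symm
    ext s
    simp only [mem_inter_iff, mem_Ioo, mem_Iic, mem_Ioc]
    constructor
    · rintro ⟨⟨h1, _⟩, h2⟩
      exact ⟨h1, h2⟩
    · rintro ⟨h1, h2⟩
      exact ⟨⟨h1, h2.trans_lt ht⟩, h2⟩
  have key := energy_aux B J hsymm hpos hτ hw'.toLp hg'.toLp
    (hgi.congr hg'.coeFn_toLp.symm) (by
      have hy' := (ae_restrict_iff' measurableSet_Ioo).1 hy
      filter_upwards [hy', hw'.coeFn_toLp] with t h1 h2 ht
      rw [h2, integral_congr_ae (ae_restrict_of_ae hg'.coeFn_toLp),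
        integral_indicator measurableSet_Ioo, Measure.restrict_restrict measurableSet_Ioo,
        setIntegral_congr_set (hinter t ht)]
      by_cases h0 : 0 < t
      · rw [indicator_of_mem (show t ∈ Ioo 0 T from ⟨h0, ht⟩), h1 ⟨h0, ht⟩]
      · rw [indicator_of_notMem (fun h' => h0 h'.1), Ioo_eq_empty h0]
        simp)
  have e : ∫ t in Iic τ, B (hg'.toLp _ t) (hw'.toLp _ t) =
      ∫ t in Iic τ, (Ioo 0 T).indicator (fun t => B (g t) (w t)) t := by
    refine integral_congr_ae ?_
    filter_upwards [ae_restrict_of_ae hg'.coeFn_toLp, ae_restrict_of_ae hw'.coeFn_toLp]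
      with t h1 h2
    rw [h1, h2]
    by_cases ht : t ∈ Ioo 0 T
    · simp only [indicator_of_mem ht]
    · simp [indicator_of_notMem ht]
  rw [e, integral_indicator measurableSet_Ioo, Measure.restrict_restrict measurableSet_Ioo,
    setIntegral_congr_set (hinter τ hτ)] at key
  exact key

end Pool.Agent.MP_954c34_an

end
end

section

open MeasureTheory Set Filter Topology

noncomputable section

namespace Pool.Agent.MP_954c34_an

variable {X Y : Type*} [NormedAddCommGroup X] [NormedSpace ℝ X] [NormedAddCommGroup Y]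
  [NormedSpace ℝ Y]

/-- One term of the lacunary series. -/
def waveTerm (a b : ℕ → X) (k : ℕ) (t : ℝ) : X :=
  Real.sin (4 ^ k * t) • a k + Real.cos (4 ^ k * t) • b k

/-- The lacunary series. -/
def wave (a b : ℕ → X) (t : ℝ) : X := ∑' k, waveTerm a b k t

lemma norm_waveTerm_le (a b : ℕ → X) (k : ℕ) (t : ℝ) :
    ‖waveTerm a b k t‖ ≤ ‖a k‖ + ‖b k‖ := by
  unfold waveTerm
  refine (norm_add_le _ _).trans (add_le_add ?_ ?_)
  · rw [norm_smul]
    exact mul_le_of_le_one_left (norm_nonneg _) (Real.abs_sin_le_one _)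
  · rw [norm_smul]
    exact mul_le_of_le_one_left (norm_nonneg _) (Real.abs_cos_le_one _)

lemma continuous_waveTerm (a b : ℕ → X) (k : ℕ) : Continuous (waveTerm a b k) := by
  unfold waveTerm
  fun_prop

lemma summable_norm_waveTerm {a b : ℕ → X} (ha : Summable fun k => ‖a k‖)
    (hb : Summable fun k => ‖b k‖) (t : ℝ) : Summable fun k => ‖waveTerm a b k t‖ :=
  Summable.of_nonneg_of_le (fun _ => norm_nonneg _) (fun k => norm_waveTerm_le a b k t) (ha.add hb)

lemma hasSum_wave [CompleteSpace X] {a b : ℕ → X} (ha : Summable fun k => ‖a k‖)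
    (hb : Summable fun k => ‖b k‖) (t : ℝ) :
    HasSum (fun k => waveTerm a b k t) (wave a b t) :=
  (summable_norm_waveTerm ha hb t).of_norm.hasSum

lemma continuous_wave [CompleteSpace X] {a b : ℕ → X} (ha : Summable fun k => ‖a k‖)
    (hb : Summable fun k => ‖b k‖) : Continuous (wave a b) :=
  continuous_tsum (continuous_waveTerm a b) (ha.add hb) (norm_waveTerm_le a b)

lemma map_wave [CompleteSpace X] (L : X →L[ℝ] Y) {a b : ℕ → X} (ha : Summable fun k => ‖a k‖)
    (hb : Summable fun k => ‖b k‖) (t : ℝ) :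
    L (wave a b t) = wave (fun k => L (a k)) (fun k => L (b k)) t := by
  have h := (hasSum_wave ha hb t).mapL L
  have h2 : (fun k => L (waveTerm a b k t)) =
      fun k => waveTerm (fun k => L (a k)) (fun k => L (b k)) k t := by
    funext k
    simp [waveTerm]
  rw [h2] at h
  exact h.tsum_eq.symm

lemma summable_of_le_half_pow {u : ℕ → ℝ} {C : ℝ} (h0 : ∀ k, 0 ≤ u k)
    (h : ∀ k, u k ≤ C * (1 / 2) ^ k) : Summable u :=
  Summable.of_nonneg_of_le h0 h (summable_geometric_two.mul_left C)

lemma norm_wave_le [CompleteSpace X] {a b : ℕ → X} {C : ℝ}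
    (ha : ∀ k, ‖a k‖ ≤ C * (1 / 2) ^ k) (hb : ∀ k, ‖b k‖ ≤ C * (1 / 2) ^ k) (t : ℝ) :
    ‖wave a b t‖ ≤ 4 * C := by
  have hs : HasSum (fun k : ℕ => 2 * C * (1 / 2 : ℝ) ^ k) (2 * C * 2) :=
    hasSum_geometric_two.mul_left (2 * C)
  have := tsum_of_norm_bounded hs (f := fun k => waveTerm a b k t) (fun k => by
    have := norm_waveTerm_le a b k t
    have := ha k
    have := hb k
    linarith)
  unfold wave
  linarith

lemma min_le_telescope {x : ℝ} (hx : 0 < x) :
    min (2 / x) x ≤ 12 * ((2 * x) / (1 + 2 * x) - x / (1 + x)) := by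
  have h1 : (2 * x) / (1 + 2 * x) - x / (1 + x) = x / ((1 + x) * (1 + 2 * x)) := by
    field_simp
    ring
  rw [h1, ← mul_div_assoc, le_div_iff₀ (by positivity)]
  rcases le_total x (3 / 2) with h | h
  · have : min (2 / x) x ≤ x := min_le_right _ _
    calc min (2 / x) x * ((1 + x) * (1 + 2 * x)) ≤ x * ((1 + x) * (1 + 2 * x)) := by gcongr
      _ ≤ x * ((5 / 2) * 4) := by gcongr <;> linarith
      _ ≤ 12 * x := by linarith
  · have : min (2 / x) x ≤ 2 / x := min_le_left _ _
    calc min (2 / x) x * ((1 + x) * (1 + 2 * x)) ≤ 2 / x * ((1 + x) * (1 + 2 * x)) := by gcongr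
      _ ≤ 2 / x * (6 * x ^ 2) :=
          mul_le_mul_of_nonneg_left (by nlinarith) (by positivity)
      _ = 12 * x := by field_simp; ring

lemma abs_sin_sub_le (u v : ℝ) : |Real.sin u - Real.sin v| ≤ min 2 |u - v| := by
  refine le_min ?_ (Real.abs_sin_sub_sin_le u v)
  have := Real.abs_sin_le_one u
  have := Real.abs_sin_le_one v
  have := abs_sub (Real.sin u) (Real.sin v)
  linarith

lemma abs_cos_sub_le (u v : ℝ) : |Real.cos u - Real.cos v| ≤ min 2 |u - v| := by
  refine le_min ?_ (Real.abs_cos_sub_cos_le u v)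
  have := Real.abs_cos_le_one u
  have := Real.abs_cos_le_one v
  have := abs_sub (Real.cos u) (Real.cos v)
  linarith

lemma norm_wave_sub_le [CompleteSpace X] {a b : ℕ → X} {C : ℝ}
    (ha : ∀ k, ‖a k‖ ≤ C * (1 / 2) ^ k) (hb : ∀ k, ‖b k‖ ≤ C * (1 / 2) ^ k) (t s : ℝ) :
    ‖wave a b t - wave a b s‖ ≤ 24 * C * √|t - s| := by
  have hC : 0 ≤ C := by simpa using (norm_nonneg _).trans (ha 0)
  rcases eq_or_ne t s with rfl | hts
  · simp
  have hsa := summable_of_le_half_pow (fun _ => norm_nonneg _) ha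
  have hsb := summable_of_le_half_pow (fun _ => norm_nonneg _) hb
  set d := √|t - s| with hd
  have hdpos : 0 < d := Real.sqrt_pos.2 (abs_pos.2 (sub_ne_zero.2 hts))
  have hd2 : d ^ 2 = |t - s| := Real.sq_sqrt (abs_nonneg _)
  have hsum := (hasSum_wave hsa hsb t).sub (hasSum_wave hsa hsb s)
  set h : ℕ → ℝ := fun k => (2 ^ k * d) / (1 + 2 ^ k * d) with hh
  have hterm : ∀ k, ‖waveTerm a b k t - waveTerm a b k s‖ ≤ 24 * C * d * (h (k + 1) - h k) := by
    intro k
    have hx : 0 < (2 : ℝ) ^ k * d := by positivity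
    have e1 : waveTerm a b k t - waveTerm a b k s =
        (Real.sin (4 ^ k * t) - Real.sin (4 ^ k * s)) • a k +
          (Real.cos (4 ^ k * t) - Real.cos (4 ^ k * s)) • b k := by
      simp only [waveTerm, sub_smul]
      abel
    have e2 : |(4 : ℝ) ^ k * t - 4 ^ k * s| = (2 ^ k * d) ^ 2 := by
      rw [← mul_sub, abs_mul, abs_of_pos (by positivity : (0 : ℝ) < 4 ^ k), mul_pow, hd2,
        ← pow_mul, mul_comm k 2, pow_mul]
      norm_num
    have e3 : min 2 ((2 ^ k * d) ^ 2) * (1 / 2 : ℝ) ^ k = d * min (2 / (2 ^ k * d)) (2 ^ k * d) := by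
      rw [min_mul_of_nonneg _ _ (by positivity), mul_min_of_nonneg _ _ hdpos.le]
      congr 1
      · field_simp
        simp
      · rw [one_div, inv_pow]
        field_simp
    have e4 := min_le_telescope hx
    have e5 : h (k + 1) - h k = (2 * (2 ^ k * d)) / (1 + 2 * (2 ^ k * d)) -
        (2 ^ k * d) / (1 + 2 ^ k * d) := by
      simp only [hh, pow_succ]
      ring_nf
    have s1 := abs_sin_sub_le (4 ^ k * t) (4 ^ k * s)
    have s2 := abs_cos_sub_le (4 ^ k * t) (4 ^ k * s)
    rw [e2] at s1 s2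
    have hm : 0 ≤ min 2 ((2 ^ k * d) ^ 2) := le_min (by norm_num) (by positivity)
    calc ‖waveTerm a b k t - waveTerm a b k s‖
        ≤ min 2 ((2 ^ k * d) ^ 2) * (C * (1 / 2) ^ k) +
          min 2 ((2 ^ k * d) ^ 2) * (C * (1 / 2) ^ k) := by
          rw [e1]
          refine (norm_add_le _ _).trans (add_le_add ?_ ?_)
          · rw [norm_smul, Real.norm_eq_abs]
            exact mul_le_mul s1 (ha k) (norm_nonneg _) hm
          · rw [norm_smul, Real.norm_eq_abs]
            exact mul_le_mul s2 (hb k) (norm_nonneg _) hm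
      _ = 2 * C * (min 2 ((2 ^ k * d) ^ 2) * (1 / 2 : ℝ) ^ k) := by ring
      _ = 2 * C * (d * min (2 / (2 ^ k * d)) (2 ^ k * d)) := by rw [e3]
      _ ≤ 2 * C * (d * (12 * (h (k + 1) - h k))) := by rw [e5]; gcongr
      _ = 24 * C * d * (h (k + 1) - h k) := by ring
  refine le_of_tendsto' (hsum.tendsto_sum_nat.norm) (fun N => ?_)
  calc ‖∑ k ∈ Finset.range N, (waveTerm a b k t - waveTerm a b k s)‖
      ≤ ∑ k ∈ Finset.range N, 24 * C * d * (h (k + 1) - h k) :=
        (norm_sum_le _ _).trans (Finset.sum_le_sum fun k _ => hterm k)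
    _ = 24 * C * d * (h N - h 0) := by rw [← Finset.mul_sum, Finset.sum_range_sub]
    _ ≤ 24 * C * d * 1 := by
        gcongr
        have h1 : h N ≤ 1 := by
          simp only [hh]
          rw [div_le_one (by positivity)]
          linarith
        have h2 : 0 ≤ h 0 := by simp only [hh]; positivity
        linarith
    _ = 24 * C * d := by ring

lemma hasDerivAt_waveTerm (a b : ℕ → X) (k : ℕ) (t : ℝ) :
    HasDerivAt (waveTerm a b k)
      (waveTerm (fun k => (-(4 : ℝ) ^ k) • b k) (fun k => ((4 : ℝ) ^ k) • a k) k t) t := by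
  have h0 : HasDerivAt (fun t : ℝ => (4 : ℝ) ^ k * t) (4 ^ k) t := by
    simpa using (hasDerivAt_id t).const_mul ((4 : ℝ) ^ k)
  have h1 := (h0.sin.smul_const (a k)).add (h0.cos.smul_const (b k))
  have e : waveTerm (fun k => (-(4 : ℝ) ^ k) • b k) (fun k => ((4 : ℝ) ^ k) • a k) k t =
      (Real.cos (4 ^ k * t) * 4 ^ k) • a k + (-Real.sin (4 ^ k * t) * 4 ^ k) • b k := by
    simp only [waveTerm, smul_smul]
    rw [add_comm]
    congr 2
    ring
  rw [e]
  exact h1

lemma hasDerivAt_wave [CompleteSpace X] {a b : ℕ → X}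
    (ha : Summable fun k => (4 : ℝ) ^ k * ‖a k‖) (hb : Summable fun k => (4 : ℝ) ^ k * ‖b k‖)
    (t : ℝ) :
    HasDerivAt (wave a b)
      (wave (fun k => (-(4 : ℝ) ^ k) • b k) (fun k => ((4 : ℝ) ^ k) • a k) t) t := by
  have hle : ∀ (c : ℕ → X) (k : ℕ), ‖c k‖ ≤ (4 : ℝ) ^ k * ‖c k‖ := fun c k =>
    le_mul_of_one_le_left (norm_nonneg _) (one_le_pow₀ (by norm_num))
  have ha' : Summable fun k => ‖a k‖ :=
    Summable.of_nonneg_of_le (fun _ => norm_nonneg _) (hle a) ha
  have hb' : Summable fun k => ‖b k‖ :=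
    Summable.of_nonneg_of_le (fun _ => norm_nonneg _) (hle b) hb
  refine hasDerivAt_tsum (hb.add ha) (hasDerivAt_waveTerm a b) (fun k y => ?_)
    (hasSum_wave ha' hb' 0).summable t
  refine (norm_waveTerm_le _ _ k y).trans (le_of_eq ?_)
  simp [norm_smul]

end Pool.Agent.MP_954c34_an

end
end

section

open MeasureTheory Set Filter Topology Complex
open scoped ContDiff

noncomputable section

namespace Pool.Agent.MP_954c34_an

variable {X : Type} [NormedAddCommGroup X] [NormedSpace ℂ X]

/-- `exp (i x)`. -/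
def cis (x : ℝ) : ℂ := cexp (x * I)

lemma continuous_cis : Continuous cis := by
  unfold cis
  fun_prop

lemma cis_add (x y : ℝ) : cis (x + y) = cis x * cis y := by
  simp [cis, add_mul, exp_add]

lemma cis_eq (x : ℝ) : cis x = Real.cos x + Real.sin x * I := by
  simp [cis, exp_mul_I]

lemma norm_cis (x : ℝ) : ‖cis x‖ = 1 := norm_exp_ofReal_mul_I x

lemma tendsto_setIntegral_cis [CompleteSpace X] (s : Set ℝ) (hs : MeasurableSet s) (F : ℝ → X) :
    Tendsto (fun l : ℝ => ∫ t in s, cis (l * t) • F t) (cocompact ℝ) (𝓝 0) := by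
  have h := Real.tendsto_integral_exp_smul_cocompact (s.indicator F)
  have hc : Tendsto (fun l : ℝ => -(2 * Real.pi)⁻¹ * l) (cocompact ℝ) (cocompact ℝ) :=
    (Homeomorph.mulLeft₀ (-(2 * Real.pi)⁻¹) (by simp [Real.pi_ne_zero])).toCocompactMap.cocompact_tendsto'
  refine (h.comp hc).congr fun l => ?_
  simp only [Function.comp]
  rw [← integral_indicator hs]
  congr 1
  funext t
  by_cases ht : t ∈ s
  · simp only [indicator_of_mem ht, Circle.smul_def, Real.fourierChar_apply, cis]
    congr 3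
    field_simp
  · simp [indicator_of_notMem ht]

lemma tendsto_smul_setIntegral_cis [CompleteSpace X] {T : ℝ} {u γ : ℝ → X}
    (h : HasWeakDeriv T u γ) (hu : IntegrableOn u (Ioo 0 T)) (hγ : IntegrableOn γ (Ioo 0 T))
    {ρ : ℝ → ℝ} (hρ : ContDiff ℝ ∞ ρ) (hρc : HasCompactSupport ρ) (hρs : tsupport ρ ⊆ Ioo 0 T) :
    Tendsto (fun l : ℝ => (l : ℂ) • ∫ t in Ioo 0 T, cis (l * t) • ρ t • u t) (cocompact ℝ)
      (𝓝 0) := by
  have h1 := tendsto_setIntegral_cis (Ioo 0 T) measurableSet_Ioo (fun t => deriv ρ t • u t)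
  have h2 := tendsto_setIntegral_cis (Ioo 0 T) measurableSet_Ioo (fun t => ρ t • γ t)
  have h3 := (h1.add h2).const_smul I
  simp only [add_zero, smul_zero] at h3
  refine h3.congr fun l => ?_
  have hρd : ∀ t, HasDerivAt ρ (deriv ρ t) t := fun t =>
    (hρ.differentiable (by simp) t).hasDerivAt
  have hρ' : Continuous (deriv ρ) := hρ.continuous_deriv (by simp)
  have hρ0 : Continuous ρ := hρ.continuous
  have hl : ∀ t, HasDerivAt (fun t : ℝ => l * t) l t := fun t => by
    simpa using (hasDerivAt_id t).const_mul l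
  have hc := h (fun t => ρ t * Real.cos (l * t)) (hρ.mul (by fun_prop)) hρc.mul_right
    ((tsupport_mul_subset_left).trans hρs)
  have hs := h (fun t => ρ t * Real.sin (l * t)) (hρ.mul (by fun_prop)) hρc.mul_right
    ((tsupport_mul_subset_left).trans hρs)
  have dc : ∀ t, deriv (fun t => ρ t * Real.cos (l * t)) t =
      deriv ρ t * Real.cos (l * t) + ρ t * (-Real.sin (l * t) * l) := fun t =>
    ((hρd t).mul (hl t).cos).deriv
  have ds : ∀ t, deriv (fun t => ρ t * Real.sin (l * t)) t =
      deriv ρ t * Real.sin (l * t) + ρ t * (Real.cos (l * t) * l) := fun t =>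
    ((hρd t).mul (hl t).sin).deriv
  simp only [dc, ds] at hc hs
  have i1 : IntegrableOn (fun t => (deriv ρ t * Real.cos (l * t) +
      ρ t * (-Real.sin (l * t) * l)) • u t) (Ioo 0 T) :=
    integrableOn_smul_of_continuous (by fun_prop) hu
  have i2 : IntegrableOn (fun t => I • (deriv ρ t * Real.sin (l * t) +
      ρ t * (Real.cos (l * t) * l)) • u t) (Ioo 0 T) :=
    (integrableOn_smul_of_continuous (φ := fun t => deriv ρ t * Real.sin (l * t) +
      ρ t * (Real.cos (l * t) * l)) (by fun_prop) hu).smul I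
  have i3 : IntegrableOn (fun t => (ρ t * Real.cos (l * t)) • γ t) (Ioo 0 T) :=
    integrableOn_smul_of_continuous (by fun_prop) hγ
  have i4 : IntegrableOn (fun t => I • (ρ t * Real.sin (l * t)) • γ t) (Ioo 0 T) :=
    (integrableOn_smul_of_continuous (φ := fun t => ρ t * Real.sin (l * t))
      (by fun_prop) hγ).smul I
  have hcis : Continuous fun t : ℝ => cis (l * t) := continuous_cis.comp (by fun_prop)
  have i5 : IntegrableOn (fun t => cis (l * t) • deriv ρ t • u t) (Ioo 0 T) :=
    integrableOn_smul_of_continuous hcis (integrableOn_smul_of_continuous hρ' hu)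
  have i6 : IntegrableOn (fun t => (I * l) • cis (l * t) • ρ t • u t) (Ioo 0 T) :=
    (integrableOn_smul_of_continuous hcis (integrableOn_smul_of_continuous hρ0 hu)).smul (I * l)
  have e1 : (∫ t in Ioo 0 T, cis (l * t) • deriv ρ t • u t) +
      (I * l) • ∫ t in Ioo 0 T, cis (l * t) • ρ t • u t =
      (∫ t in Ioo 0 T, (deriv ρ t * Real.cos (l * t) + ρ t * (-Real.sin (l * t) * l)) • u t) +
      I • ∫ t in Ioo 0 T, (deriv ρ t * Real.sin (l * t) + ρ t * (Real.cos (l * t) * l)) • u t := by
    rw [← integral_smul, ← integral_smul, ← integral_add i5 i6, ← integral_add i1 i2]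
    refine integral_congr_ae (Eventually.of_forall fun t => ?_)
    simp only [← Complex.coe_smul, smul_smul, ← add_smul, cis_eq]
    congr 1
    push_cast
    linear_combination (l * ρ t * Complex.sin (l * t)) * I_mul_I
  have e2 : (∫ t in Ioo 0 T, cis (l * t) • ρ t • γ t) =
      (∫ t in Ioo 0 T, (ρ t * Real.cos (l * t)) • γ t) +
      I • ∫ t in Ioo 0 T, (ρ t * Real.sin (l * t)) • γ t := by
    rw [← integral_smul, ← integral_add i3 i4]
    refine integral_congr_ae (Eventually.of_forall fun t => ?_)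
    simp only [← Complex.coe_smul, smul_smul, ← add_smul, cis_eq]
    congr 1
    push_cast
    ring
  rw [hc, hs, smul_neg, ← neg_add, ← e2] at e1
  have e3 : (∫ t in Ioo 0 T, cis (l * t) • deriv ρ t • u t) +
      (∫ t in Ioo 0 T, cis (l * t) • ρ t • γ t) =
      -((I * l) • ∫ t in Ioo 0 T, cis (l * t) • ρ t • u t) := by
    rw [eq_neg_iff_add_eq_zero, add_right_comm, e1]
    simp
  rw [e3, smul_neg, smul_smul, ← neg_smul]
  congr 1
  linear_combination (-(l : ℂ)) * I_mul_I

lemma waveTerm_eq_cis (a b : ℕ → X) (k : ℕ) (t : ℝ) :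
    waveTerm a b k t = cis (4 ^ k * t) • ((1 / 2 : ℂ) • (b k - I • a k)) +
      cis (-(4 ^ k * t)) • ((1 / 2 : ℂ) • (b k + I • a k)) := by
  simp only [waveTerm, ← Complex.coe_smul, cis_eq, Real.cos_neg, Real.sin_neg]
  match_scalars
  · linear_combination (Complex.sin (4 ^ k * t)) * I_mul_I
  · ring

lemma pow_four_le_abs_sub {j k : ℕ} (h : k ≠ j) : (4 : ℝ) ^ j ≤ 2 * |-(4 : ℝ) ^ j + 4 ^ k| := by
  rcases lt_or_gt_of_ne h with h | h
  · have : (4 : ℝ) ^ (k + 1) ≤ 4 ^ j := pow_le_pow_right₀ (by norm_num) h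
    rw [pow_succ] at this
    have h0 : (0 : ℝ) < 4 ^ k := by positivity
    rw [abs_of_nonpos (by linarith)]
    linarith
  · have : (4 : ℝ) ^ (j + 1) ≤ 4 ^ k := pow_le_pow_right₀ (by norm_num) h
    rw [pow_succ] at this
    have h0 : (0 : ℝ) < 4 ^ j := by positivity
    rw [abs_of_nonneg (by linarith)]
    linarith

/-- If `t • (g + wave a b t)` has an integrable weak derivative then the coefficients decay
faster than `4 ^ (-j)`. -/
lemma tendsto_of_hasWeakDeriv [CompleteSpace X] {T : ℝ} (hT : 0 < T) (g : X) {a b : ℕ → X}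
    (ha : Summable fun k => ‖a k‖) (hb : Summable fun k => ‖b k‖) {γ : ℝ → X}
    (hγ : IntegrableOn γ (Ioo 0 T)) (h : HasWeakDeriv T (fun t => t • (g + wave a b t)) γ) :
    Tendsto (fun j : ℕ => (4 : ℝ) ^ j * ‖b j - I • a j‖) atTop (𝓝 0) := by
  set ρ : ℝ → ℝ := ⇑(midBump hT) with hρdef
  have hρ : ContDiff ℝ ∞ ρ := (midBump hT).contDiff
  have hρ0 : Continuous ρ := hρ.continuous
  have hρc : HasCompactSupport ρ := (midBump hT).hasCompactSupport
  have hρs : tsupport ρ ⊆ Ioo 0 T := by
    rw [hρdef, ContDiffBump.tsupport_eq]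
    exact closedBall_midBump hT
  have hcont : Continuous fun t : ℝ => t • (g + wave a b t) :=
    continuous_id.smul (continuous_const.add (continuous_wave ha hb))
  have hS := tendsto_smul_setIntegral_cis h (memL2_of_continuous hcont).integrableOn hγ hρ hρc hρs
  set F : ℝ → ℂ := fun l => ∫ t in Ioo 0 T, cis (l * t) • ρ t • (t : ℂ) with hF
  have hFlim : Tendsto (fun l : ℝ => (l : ℂ) • F l) (cocompact ℝ) (𝓝 0) := by
    have hid : HasWeakDeriv T (fun t : ℝ => (t : ℂ)) (fun _ => 1) :=
      hasWeakDeriv_of_hasDerivAt hT (fun t => by simpa using (hasDerivAt_id t).ofReal_comp)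
        continuous_const
    exact tendsto_smul_setIntegral_cis hid (memL2_of_continuous continuous_ofReal).integrableOn
      (memL2_of_continuous continuous_const).integrableOn hρ hρc hρs
  have hF0 : F 0 ≠ 0 := by
    have e : F 0 = ((∫ t in Ioo 0 T, ρ t * t : ℝ) : ℂ) := by
      rw [← integral_complex_ofReal]
      simp [hF, cis]
    rw [e, ofReal_ne_zero]
    apply ne_of_gt
    rw [setIntegral_pos_iff_support_of_nonneg_ae]
    · refine lt_of_lt_of_le ?_ (measure_mono (s := Metric.ball (T / 2) (midBump hT).rOut) ?_)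
      · exact Metric.measure_ball_pos _ _ (midBump hT).rOut_pos
      · intro t ht
        have ht' := closedBall_midBump hT (Metric.ball_subset_closedBall ht)
        exact ⟨(mul_pos ((midBump hT).pos_of_mem_ball ht) ht'.1).ne', ht'⟩
    · filter_upwards [ae_restrict_mem measurableSet_Ioo] with t ht
      exact mul_nonneg ((midBump hT).nonneg) ht.1.le
    · exact (memL2_of_continuous (hρ0.mul continuous_id)).integrableOn
  set p : ℕ → X := fun k => (1 / 2 : ℂ) • (b k - I • a k) with hp
  set q : ℕ → X := fun k => (1 / 2 : ℂ) • (b k + I • a k) with hq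
  have hpn : ∀ k, ‖p k‖ ≤ ‖a k‖ + ‖b k‖ := fun k => by
    have := norm_sub_le (b k) (I • a k)
    simp only [hp, norm_smul, norm_I, one_mul, norm_div, norm_one, Complex.norm_ofNat] at this ⊢
    linarith [norm_nonneg (a k), norm_nonneg (b k)]
  have hqn : ∀ k, ‖q k‖ ≤ ‖a k‖ + ‖b k‖ := fun k => by
    have := norm_add_le (b k) (I • a k)
    simp only [hq, norm_smul, norm_I, one_mul, norm_div, norm_one, Complex.norm_ofNat] at this ⊢
    linarith [norm_nonneg (a k), norm_nonneg (b k)]
  have hker : ∀ l : ℝ, Continuous fun t : ℝ => cis (l * t) • ρ t • (t : ℂ) := fun l =>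
    (continuous_cis.comp (by fun_prop)).smul (hρ0.smul continuous_ofReal)
  have hkeri : ∀ l : ℝ, IntegrableOn (fun t : ℝ => cis (l * t) • ρ t • (t : ℂ)) (Ioo 0 T) :=
    fun l => (memL2_of_continuous (hker l)).integrableOn
  -- expansion of the Fourier coefficient
  have hexp : ∀ l : ℝ, HasSum (fun k : ℕ => F (l + 4 ^ k) • p k + F (l - 4 ^ k) • q k)
      ((∫ t in Ioo 0 T, cis (l * t) • ρ t • t • (g + wave a b t)) - F l • g) := by
    intro l
    have hint : ∀ k, Integrable (fun t : ℝ => (cis (l * t) • ρ t • (t : ℂ)) • waveTerm a b k t)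
        (volume.restrict (Ioo 0 T)) := fun k =>
      (memL2_of_continuous ((hker l).smul (continuous_waveTerm a b k))).integrableOn
    have hsum : Summable fun k => ∫ t in Ioo 0 T,
        ‖(cis (l * t) • ρ t • (t : ℂ)) • waveTerm a b k t‖ := by
      refine Summable.of_nonneg_of_le (fun k => integral_nonneg fun t => norm_nonneg _)
        (fun k => ?_) ((ha.add hb).mul_left (∫ t in Ioo 0 T, ‖cis (l * t) • ρ t • (t : ℂ)‖))
      rw [← integral_mul_const]
      refine integral_mono (hint k).norm ((hkeri l).norm.mul_const _) fun t => ?_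
      simp only [norm_smul _ (waveTerm a b k t)]
      exact mul_le_mul_of_nonneg_left (norm_waveTerm_le a b k t) (norm_nonneg _)
    have h1 := hasSum_integral_of_summable_integral_norm hint hsum
    convert h1 using 1
    · funext k
      simp only [hF]
      rw [← integral_smul_const, ← integral_smul_const,
        ← integral_add ((hkeri _).smul_const _) ((hkeri _).smul_const _)]
      refine integral_congr_ae (Eventually.of_forall fun t => ?_)
      simp only [waveTerm_eq_cis, smul_add, smul_smul, hp, hq, add_mul, cis_add,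
        sub_eq_add_neg, neg_mul, smul_eq_mul, real_smul]
      module
    · simp only [hF]
      rw [← integral_smul_const, ← integral_sub _ ((hkeri _).smul_const _)]
      · refine integral_congr_ae (Eventually.of_forall fun t => ?_)
        simp only
        rw [(hasSum_wave ha hb t).summable.tsum_const_smul, (hasSum_wave ha hb t).tsum_eq]
        simp only [← Complex.coe_smul, smul_smul, smul_eq_mul, smul_add]
        module
      · exact (memL2_of_continuous ((continuous_cis.comp (by fun_prop)).smul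
          (hρ0.smul hcont))).integrableOn
  have hpow : Tendsto (fun j : ℕ => -(4 : ℝ) ^ j) atTop (cocompact ℝ) :=
    (tendsto_neg_atTop_atBot.comp
      (tendsto_pow_atTop_atTop_of_one_lt (by norm_num : (1 : ℝ) < 4))).mono_right
      atBot_le_cocompact
  -- the error term
  set err : ℕ → ℕ → X := fun j k =>
    (if k = j then 0 else ((-(4 : ℝ) ^ j : ℝ) : ℂ) • F (-4 ^ j + 4 ^ k)) • p k +
      (((-(4 : ℝ) ^ j : ℝ) : ℂ) • F (-4 ^ j - 4 ^ k)) • q k with herr
  have herrsum : ∀ j : ℕ, HasSum (err j)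
      (((-(4 : ℝ) ^ j : ℝ) : ℂ) • (∫ t in Ioo 0 T,
        cis (-4 ^ j * t) • ρ t • t • (g + wave a b t)) -
        (((-(4 : ℝ) ^ j : ℝ) : ℂ) • F (-4 ^ j)) • g - (((-(4 : ℝ) ^ j : ℝ) : ℂ) • F 0) • p j) := by
    intro j
    have h1 := ((hexp (-4 ^ j)).const_smul (((-(4 : ℝ) ^ j : ℝ) : ℂ))).sub
      (hasSum_ite_eq j ((((-(4 : ℝ) ^ j : ℝ) : ℂ) • F 0) • p j))
    convert h1 using 1
    · funext k
      simp only [herr]
      split_ifs with hk
      · subst hk
        simp only [neg_add_cancel, smul_add, smul_smul, smul_eq_mul]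
        module
      · simp only [smul_add, smul_smul, smul_eq_mul]
        module
    · simp only [smul_sub, smul_smul, smul_eq_mul]
  have herrlim : Tendsto (fun j => ∑' k, err j k) atTop (𝓝 0) := by
    set S := ∑' k, (‖a k‖ + ‖b k‖) with hSdef
    have hS0 : 0 ≤ S := tsum_nonneg fun k => by positivity
    rw [NormedAddGroup.tendsto_nhds_zero]
    intro ε hε
    set δ := ε / (4 * S + 1) with hδ
    have hδ0 : 0 < δ := by positivity
    have h1 := (NormedAddGroup.tendsto_nhds_zero.1 hFlim) δ hδ0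
    obtain ⟨R, hR⟩ : ∃ R : ℝ, ∀ l : ℝ, R < |l| → ‖(l : ℂ) • F l‖ < δ := by
      rw [← Metric.cobounded_eq_cocompact,
        (Metric.hasBasis_cobounded_compl_closedBall (0 : ℝ)).eventually_iff] at h1
      obtain ⟨R, -, hR⟩ := h1
      exact ⟨R, fun l hl => hR (by simpa using hl)⟩
    filter_upwards [(tendsto_pow_atTop_atTop_of_one_lt
      (by norm_num : (1 : ℝ) < 4)).eventually_gt_atTop (2 * R)] with j hj
    have hb2 : ∀ l : ℝ, (4 : ℝ) ^ j ≤ 2 * |l| → ‖((-(4 : ℝ) ^ j : ℝ) : ℂ) • F l‖ ≤ 2 * δ := by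
      intro l hl
      have h2 := hR l (by linarith)
      rw [norm_smul, norm_real, Real.norm_eq_abs] at h2 ⊢
      rw [abs_neg, abs_of_pos (by positivity)]
      calc (4 : ℝ) ^ j * ‖F l‖ ≤ (2 * |l|) * ‖F l‖ := by gcongr
        _ = 2 * (|l| * ‖F l‖) := by ring
        _ ≤ 2 * δ := by linarith
    have hbound : ∀ k, ‖err j k‖ ≤ 4 * δ * (‖a k‖ + ‖b k‖) := by
      intro k
      have e1 : ‖(if k = j then 0 else ((-(4 : ℝ) ^ j : ℝ) : ℂ) • F (-4 ^ j + 4 ^ k))‖ ≤ 2 * δ := by
        split_ifs with hk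
        · simp only [norm_zero]
          positivity
        · exact hb2 _ (pow_four_le_abs_sub hk)
      have e2 : ‖((-(4 : ℝ) ^ j : ℝ) : ℂ) • F (-4 ^ j - 4 ^ k)‖ ≤ 2 * δ := by
        apply hb2
        have h4 : (0 : ℝ) < 4 ^ j := by positivity
        have h5 : (0 : ℝ) < 4 ^ k := by positivity
        rw [abs_of_nonpos (by linarith)]
        linarith
      calc ‖err j k‖ ≤ 2 * δ * (‖a k‖ + ‖b k‖) + 2 * δ * (‖a k‖ + ‖b k‖) := by
            refine (norm_add_le _ _).trans (add_le_add ?_ ?_)
            · rw [norm_smul]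
              exact mul_le_mul e1 (hpn k) (norm_nonneg _) (by positivity)
            · rw [norm_smul]
              exact mul_le_mul e2 (hqn k) (norm_nonneg _) (by positivity)
        _ = 4 * δ * (‖a k‖ + ‖b k‖) := by ring
    have h3 := tsum_of_norm_bounded ((ha.add hb).hasSum.mul_left (4 * δ)) hbound
    calc ‖∑' k, err j k‖ ≤ 4 * δ * S := h3
      _ < δ * (4 * S + 1) := by nlinarith
      _ = ε := by rw [hδ]; field_simp
  have hmain : Tendsto (fun j : ℕ => (((-(4 : ℝ) ^ j : ℝ) : ℂ) • F 0) • p j) atTop (𝓝 0) := by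
    have h1 := ((hS.comp hpow).sub ((hFlim.comp hpow).smul_const g)).sub herrlim
    simp only [zero_smul, sub_zero] at h1
    refine h1.congr fun j => ?_
    rw [(herrsum j).tsum_eq]
    simp only [Function.comp]
    abel
  have h2 := (hmain.norm.const_mul (2 / ‖F 0‖))
  simp only [norm_zero, mul_zero] at h2
  refine h2.congr fun j => ?_
  have : ‖F 0‖ ≠ 0 := norm_ne_zero_iff.2 hF0
  simp only [hp, norm_smul, norm_real, Real.norm_eq_abs, abs_neg, norm_div, norm_one,
    Complex.norm_ofNat]
  rw [abs_of_pos (by positivity)]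
  field_simp

end Pool.Agent.MP_954c34_an

end
end
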