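import Pool.Agent.MP_954c34_an.Defs

section

open MeasureTheory Set
open scoped ContDiff ComplexConjugate Matrix

noncomputable section

namespace Pool.Agent.MP_954c34_an

variable {E : Type} [NormedAddCommGroup E] [InnerProductSpace ℝ E] [FiniteDimensional ℝ E]
  [MeasurableSpace E] [BorelSpace E] {n : ℕ}

set_option linter.unusedSectionVars false

/-- `H = L²(Ω; ℂ)`. -/
abbrev L2 (μ : Measure E) (Ω : Set E) : Type := Lp ℂ 2 (μ.restrict Ω)

/-- `L²(Ω)^{1+n}` with the Hilbert norm: `w none` is a function `u`, `w (some i)` is its `i`-th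
derivative, so that `‖w‖` is the `H¹(Ω)` norm of `u`. -/
abbrev Jet (n : ℕ) (μ : Measure E) (Ω : Set E) : Type := PiLp 2 (fun _ : Option (Fin n) => L2 μ Ω)

/-- The pairs `(φ|_Ω, ∇φ|_Ω)` with `φ ∈ C_c^∞(ℝⁿ \ D)`. -/
def testJets (μ : Measure E) (b : OrthonormalBasis (Fin n) ℝ E) (Ω D : Set E) : Set (Jet n μ Ω) :=
  {w | ∃ φ : E → ℂ, ContDiff ℝ ∞ φ ∧ HasCompactSupport φ ∧ tsupport φ ⊆ Dᶜ ∧
    (w none : E → ℂ) =ᵐ[μ.restrict Ω] φ ∧
    ∀ i, (w (some i) : E → ℂ) =ᵐ[μ.restrict Ω] coordDeriv b i φ}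

/-- `V`: the `H¹(Ω)`-closure of the test functions, `u` being identified with `(u, ∇u)`. -/
def formDomain (μ : Measure E) (b : OrthonormalBasis (Fin n) ℝ E) (Ω D : Set E) : Submodule ℂ (Jet n μ Ω) :=
  (Submodule.span ℂ (testJets μ b Ω D)).topologicalClosure

/-- `V*`: the continuous antilinear functionals on `V`. -/
abbrev Antidual (μ : Measure E) (b : OrthonormalBasis (Fin n) ℝ E) (Ω D : Set E) : Type := formDomain μ b Ω D →L⋆[ℂ] ℂ

/-- The embedding `V ↪ H`. -/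
def toH (μ : Measure E) (b : OrthonormalBasis (Fin n) ℝ E) (Ω D : Set E) : formDomain μ b Ω D →L[ℂ] L2 μ Ω :=
  (PiLp.proj 2 (fun _ : Option (Fin n) => L2 μ Ω) none).comp (formDomain μ b Ω D).subtypeL

/-- The form `𝔞(u, v) = ∫_Ω M(x) ∇u ⬝ conj ∇v dx` with coefficient matrix `M`. -/
def form (μ : Measure E) (b : OrthonormalBasis (Fin n) ℝ E) (Ω D : Set E) (M : E → Matrix (Fin n) (Fin n) ℂ)
    (u v : formDomain μ b Ω D) : ℂ :=
  ∫ x in Ω, ∑ i, ∑ j, M x i j * (u : Jet n μ Ω) (some j) x * conj ((v : Jet n μ Ω) (some i) x) ∂μ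

end Pool.Agent.MP_954c34_an

end
end

section

open MeasureTheory Set Filter Topology
open scoped ContDiff ComplexConjugate InnerProductSpace BoundedContinuousFunction Matrix

set_option maxSynthPendingDepth 3

noncomputable section

namespace Pool.Agent.MP_954c34_an

variable {E : Type} [NormedAddCommGroup E] [InnerProductSpace ℝ E] [FiniteDimensional ℝ E]
  [MeasurableSpace E] [BorelSpace E] {n : ℕ}

set_option linter.unusedSectionVars false

lemma memLp_mul_bcf (μ : Measure E) (Ω : Set E) (m : E →ᵇ ℂ) (h : L2 μ Ω) :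
    MemLp (fun x => m x * h x) 2 (μ.restrict Ω) :=
  MemLp.of_le_mul (c := ‖m‖) (Lp.memLp h)
    (m.continuous.aestronglyMeasurable.mul (Lp.aestronglyMeasurable h))
    (Eventually.of_forall fun x => by
      rw [norm_mul]
      exact mul_le_mul_of_nonneg_right (m.norm_coe_le_norm x) (norm_nonneg _))

/-- Multiplication by a bounded continuous function, as a bilinear map. -/
def mulLin (μ : Measure E) (Ω : Set E) : (E →ᵇ ℂ) →ₗ[ℂ] L2 μ Ω →ₗ[ℂ] L2 μ Ω :=
  LinearMap.mk₂ ℂ (fun m h => (memLp_mul_bcf μ Ω m h).toLp _)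
    (fun m m' h => by
      rw [← MemLp.toLp_add]
      refine MemLp.toLp_congr _ _ (Eventually.of_forall fun x => ?_)
      simp [add_mul])
    (fun c m h => by
      rw [← MemLp.toLp_const_smul]
      refine MemLp.toLp_congr _ _ (Eventually.of_forall fun x => ?_)
      simp [mul_assoc])
    (fun m h h' => by
      rw [← MemLp.toLp_add]
      refine MemLp.toLp_congr _ _ ?_
      filter_upwards [Lp.coeFn_add h h'] with x hx
      simp only [hx, mul_add, Pi.add_apply])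
    (fun c m h => by
      rw [← MemLp.toLp_const_smul]
      refine MemLp.toLp_congr _ _ ?_
      filter_upwards [Lp.coeFn_smul c h] with x hx
      simp [hx, mul_left_comm])

lemma coeFn_mulLin (μ : Measure E) (Ω : Set E) (m : E →ᵇ ℂ) (h : L2 μ Ω) :
    mulLin μ Ω m h =ᵐ[μ.restrict Ω] fun x => m x * h x :=
  (memLp_mul_bcf μ Ω m h).coeFn_toLp

lemma norm_mulLin_le (μ : Measure E) (Ω : Set E) (m : E →ᵇ ℂ) (h : L2 μ Ω) :
    ‖mulLin μ Ω m h‖ ≤ 1 * ‖m‖ * ‖h‖ := by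
  rw [one_mul]
  refine Lp.norm_le_mul_norm_of_ae_le_mul ?_
  filter_upwards [coeFn_mulLin μ Ω m h] with x hx
  rw [hx, norm_mul]
  exact mul_le_mul_of_nonneg_right (m.norm_coe_le_norm x) (norm_nonneg _)

/-- Multiplication by a real bounded continuous function. -/
def mulOp (μ : Measure E) (Ω : Set E) : (E →ᵇ ℝ) →L[ℝ] L2 μ Ω →L[ℂ] L2 μ Ω :=
  (((mulLin μ Ω).mkContinuous₂ 1 (norm_mulLin_le μ Ω)).restrictScalars ℝ).comp
    (Complex.ofRealCLM.compLeftContinuousBounded E)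

lemma coeFn_mulOp (μ : Measure E) (Ω : Set E) (m : E →ᵇ ℝ) (h : L2 μ Ω) :
    mulOp μ Ω m h =ᵐ[μ.restrict Ω] fun x => (m x : ℂ) * h x :=
  coeFn_mulLin μ Ω _ h

lemma mulOp_mul (μ : Measure E) (Ω : Set E) (m m' : E →ᵇ ℝ) (h : L2 μ Ω) :
    mulOp μ Ω m (mulOp μ Ω m' h) = mulOp μ Ω (m * m') h := by
  refine Lp.ext ?_
  filter_upwards [coeFn_mulOp μ Ω m (mulOp μ Ω m' h), coeFn_mulOp μ Ω m' h, coeFn_mulOp μ Ω (m * m') h]
    with x h1 h2 h3
  rw [h1, h2, h3]
  simp [mul_assoc]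

/-- The components of an element of `V`. -/
def comp (μ : Measure E) (b : OrthonormalBasis (Fin n) ℝ E) (Ω D : Set E) (o : Option (Fin n)) : formDomain μ b Ω D →L[ℂ] L2 μ Ω :=
  (PiLp.proj 2 (fun _ : Option (Fin n) => L2 μ Ω) o).comp (formDomain μ b Ω D).subtypeL

lemma comp_apply (μ : Measure E) (b : OrthonormalBasis (Fin n) ℝ E) (Ω D : Set E) (o : Option (Fin n)) (u : formDomain μ b Ω D) :
    comp μ b Ω D o u = (u : Jet n μ Ω) o := rfl

lemma toH_eq (μ : Measure E) (b : OrthonormalBasis (Fin n) ℝ E) (Ω D : Set E) : toH μ b Ω D = comp μ b Ω D none := rfl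

/-- Pairing with a component. -/
def dualOf (μ : Measure E) (b : OrthonormalBasis (Fin n) ℝ E) (Ω D : Set E) (o : Option (Fin n)) : L2 μ Ω →L[ℂ] Antidual μ b Ω D :=
  (ContinuousLinearMap.precomp ℂ (comp μ b Ω D o)).comp (innerSLFlip ℂ)

lemma dualOf_apply (μ : Measure E) (b : OrthonormalBasis (Fin n) ℝ E) (Ω D : Set E) (o : Option (Fin n)) (h : L2 μ Ω) (v : formDomain μ b Ω D) :
    dualOf μ b Ω D o h v = ⟪comp μ b Ω D o v, h⟫_ℂ := rfl

lemma toAntidual_eq (μ : Measure E) (b : OrthonormalBasis (Fin n) ℝ E) (Ω D : Set E) (h : L2 μ Ω) : toAntidual (toH μ b Ω D) h = dualOf μ b Ω D none h := rfl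

/-- The operator of a matrix of coefficients. -/
def matOp (μ : Measure E) (b : OrthonormalBasis (Fin n) ℝ E) (Ω D : Set E) (M : Fin n → Fin n → (E →ᵇ ℝ)) :
    formDomain μ b Ω D →L[ℂ] Antidual μ b Ω D :=
  ∑ i, ∑ j, (dualOf μ b Ω D (some i)).comp ((mulOp μ Ω (M i j)).comp (comp μ b Ω D (some j)))

lemma matOp_apply (μ : Measure E) (b : OrthonormalBasis (Fin n) ℝ E) (Ω D : Set E) (M : Fin n → Fin n → (E →ᵇ ℝ))
    (u : formDomain μ b Ω D) :
    matOp μ b Ω D M u = ∑ i, ∑ j, dualOf μ b Ω D (some i) (mulOp μ Ω (M i j) (comp μ b Ω D (some j) u)) := by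
  simp only [matOp, sum_apply, ContinuousLinearMap.comp_apply]

lemma exists_norm_matOp_sub_le (μ : Measure E) (b : OrthonormalBasis (Fin n) ℝ E) (Ω D : Set E) :
    ∃ K : ℝ, 0 ≤ K ∧ ∀ (M M' : Fin n → Fin n → (E →ᵇ ℝ)) (c : ℝ),
      (∀ i j, ‖M i j - M' i j‖ ≤ c) → ‖matOp μ b Ω D M - matOp μ b Ω D M'‖ ≤ K * c := by
  refine ⟨∑ i, ∑ j, ‖dualOf μ b Ω D (some i)‖ * (‖mulOp μ Ω‖ * ‖comp μ b Ω D (some j)‖), by positivity,
    fun M M' c h => ?_⟩
  rw [matOp, matOp, ← Finset.sum_sub_distrib, Finset.sum_mul]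
  refine (norm_sum_le _ _).trans (Finset.sum_le_sum fun i _ => ?_)
  rw [← Finset.sum_sub_distrib, Finset.sum_mul]
  refine (norm_sum_le _ _).trans (Finset.sum_le_sum fun j _ => ?_)
  rw [← ContinuousLinearMap.comp_sub, ← ContinuousLinearMap.sub_comp, ← map_sub]
  calc _ ≤ ‖dualOf μ b Ω D (some i)‖ * ‖(mulOp μ Ω (M i j - M' i j)).comp (comp μ b Ω D (some j))‖ :=
        ContinuousLinearMap.opNorm_comp_le _ _
    _ ≤ ‖dualOf μ b Ω D (some i)‖ * (‖mulOp μ Ω (M i j - M' i j)‖ * ‖comp μ b Ω D (some j)‖) := by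
        gcongr
        exact ContinuousLinearMap.opNorm_comp_le _ _
    _ ≤ ‖dualOf μ b Ω D (some i)‖ * ((‖mulOp μ Ω‖ * c) * ‖comp μ b Ω D (some j)‖) := by
        gcongr
        exact ((mulOp μ Ω).le_opNorm _).trans (mul_le_mul_of_nonneg_left (h i j) (norm_nonneg _))
    _ = _ := by ring

lemma integrable_entry (μ : Measure E) (b : OrthonormalBasis (Fin n) ℝ E) (Ω D : Set E) (m : E →ᵇ ℝ) (i j : Fin n)
    (u v : formDomain μ b Ω D) :
    Integrable (fun x => (m x : ℂ) * (u : Jet n μ Ω) (some j) x * conj ((v : Jet n μ Ω) (some i) x))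
      (μ.restrict Ω) := by
  refine (L2.integrable_inner (𝕜 := ℂ) (comp μ b Ω D (some i) v)
    (mulOp μ Ω m (comp μ b Ω D (some j) u))).congr ?_
  filter_upwards [coeFn_mulOp μ Ω m (comp μ b Ω D (some j) u)] with x hx
  rw [hx]
  simp [comp_apply]

lemma matOp_eq_form (μ : Measure E) (b : OrthonormalBasis (Fin n) ℝ E) (Ω D : Set E) (M : Fin n → Fin n → (E →ᵇ ℝ))
    (u v : formDomain μ b Ω D) :
    matOp μ b Ω D M u v = form μ b Ω D (fun x => Matrix.of fun i j => (M i j x : ℂ)) u v := by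
  simp only [form, Matrix.of_apply]
  rw [matOp_apply, integral_finsetSum _ (fun i _ =>
    integrable_finsetSum _ fun j _ => integrable_entry μ b Ω D (M i j) i j u v),
    sum_apply]
  refine Finset.sum_congr rfl fun i _ => ?_
  rw [integral_finsetSum _ (fun j _ => integrable_entry μ b Ω D (M i j) i j u v),
    sum_apply]
  refine Finset.sum_congr rfl fun j _ => ?_
  rw [dualOf_apply, L2.inner_def]
  refine integral_congr_ae ?_
  filter_upwards [coeFn_mulOp μ Ω (M i j) (comp μ b Ω D (some j) u)] with x hx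
  rw [hx]
  simp [comp_apply]

lemma matOp_coercive (μ : Measure E) (b : OrthonormalBasis (Fin n) ℝ E) (Ω D : Set E) (hΩ : MeasurableSet Ω)
    (M : Fin n → Fin n → (E →ᵇ ℝ)) {lam Lam : ℝ}
    (hlam : 0 < lam) (hM : ∀ x ∈ Ω, IsElliptic lam Lam (Matrix.of fun i j => (M i j x : ℂ)))
    (u : formDomain μ b Ω D) :
    0 ≤ (matOp μ b Ω D M u u).re ∧ ((matOp μ b Ω D M u u).re ≤ 0 → matOp μ b Ω D M u = 0) := by
  set F : E → ℂ := fun x => ∑ i, ∑ j,
    (M i j x : ℂ) * (u : Jet n μ Ω) (some j) x * conj ((u : Jet n μ Ω) (some i) x) with hF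
  have hFi : Integrable F (μ.restrict Ω) := integrable_finsetSum _ (fun i _ =>
    integrable_finsetSum _ fun j _ => integrable_entry μ b Ω D (M i j) i j u u)
  have e : (matOp μ b Ω D M u u).re = ∫ x in Ω, (F x).re ∂μ := by
    rw [matOp_eq_form]
    exact (integral_re hFi).symm
  have hge : ∀ᵐ x ∂(μ.restrict Ω), lam * ∑ i, ‖(u : Jet n μ Ω) (some i) x‖ ^ 2 ≤ (F x).re := by
    filter_upwards [ae_restrict_mem hΩ] with x hx
    have := (hM x hx (fun i => (u : Jet n μ Ω) (some i) x)).2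
    simpa [hF, Matrix.mulVec, dotProduct, Finset.sum_mul] using this
  have hnn : 0 ≤ᵐ[μ.restrict Ω] fun x => (F x).re := by
    filter_upwards [hge] with x hx
    exact le_trans (by positivity) hx
  rw [e]
  refine ⟨integral_nonneg_of_ae hnn, fun h => ?_⟩
  have h0 := (integral_eq_zero_iff_of_nonneg_ae hnn hFi.re).1
    (le_antisymm h (integral_nonneg_of_ae hnn))
  have hz : ∀ j, comp μ b Ω D (some j) u = 0 := by
    intro j
    refine Lp.ext ?_
    filter_upwards [h0, hge, Lp.coeFn_zero ℂ 2 (μ.restrict Ω)] with x h1 h2 h3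
    rw [h3]
    have h4 : (F x).re = 0 := h1
    rw [h4] at h2
    have h5 : ∑ i, ‖(u : Jet n μ Ω) (some i) x‖ ^ 2 ≤ 0 := by
      by_contra hc
      have := mul_pos hlam (not_le.1 hc)
      linarith
    have h6 := (Finset.sum_eq_zero_iff_of_nonneg (fun i _ => sq_nonneg _)).1
      (le_antisymm h5 (Finset.sum_nonneg fun i _ => sq_nonneg _)) j (Finset.mem_univ j)
    simpa [comp_apply] using h6
  simp [matOp_apply, hz]

end Pool.Agent.MP_954c34_an

end
end

section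

open MeasureTheory Set Filter Topology
open scoped ContDiff ComplexConjugate InnerProductSpace BoundedContinuousFunction Matrix

set_option maxSynthPendingDepth 3

noncomputable section

namespace Pool.Agent.MP_954c34_an

variable {E : Type} [NormedAddCommGroup E] [InnerProductSpace ℝ E] [FiniteDimensional ℝ E]
  [MeasurableSpace E] [BorelSpace E] {n : ℕ}

set_option linter.unusedSectionVars false

/-- The derivative of a real function in the `i`-th direction. -/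
def pd (b : OrthonormalBasis (Fin n) ℝ E) (i : Fin n) (F : E → ℝ) (x : E) : ℝ :=
  fderiv ℝ F x (b i)

/-- Smooth functions supported in `K`. -/
structure Test (K : Set E) (F : E → ℝ) : Prop where
  smooth : ContDiff ℝ ∞ F
  supp : tsupport F ⊆ K

lemma Test.pd {K : Set E} {F : E → ℝ} (h : Test K F) (b : OrthonormalBasis (Fin n) ℝ E) (i : Fin n) :
    Test K (pd b i F) :=
  ⟨(h.smooth.fderiv_right (m := ∞) (by simp)).clm_apply contDiff_const,
    (tsupport_fderiv_apply_subset ℝ _).trans h.supp⟩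

lemma Test.mono {K K' : Set E} {F : E → ℝ} (h : Test K F) (hK : K ⊆ K') :
    Test K' F := ⟨h.smooth, h.supp.trans hK⟩

lemma Test.compact {K : Set E} {F : E → ℝ} (h : Test K F) (hK : IsCompact K) :
    HasCompactSupport F := hK.of_isClosed_subset (isClosed_tsupport _) h.supp

lemma Test.eq_zero {K : Set E} {F : E → ℝ} (h : Test K F) {x : E}
    (hx : x ∉ K) : F x = 0 := image_eq_zero_of_notMem_tsupport fun h' => hx (h.supp h')

lemma Test.differentiable {K : Set E} {F : E → ℝ} (h : Test K F) :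
    Differentiable ℝ F := h.smooth.differentiable (by simp)

open Classical in
/-- A continuous compactly supported function as a bounded continuous function. -/
def bcf (F : E → ℝ) : E →ᵇ ℝ :=
  if h : Continuous F ∧ HasCompactSupport F then ofCompactSupport F h.1 h.2 else 0

lemma Test.bcf_apply {K : Set E} {F : E → ℝ} (h : Test K F) (hK : IsCompact K)
    (x : E) : bcf F x = F x := by
  rw [bcf, dif_pos ⟨h.smooth.continuous, h.compact hK⟩]
  rfl

lemma Test.norm_bcf_le {K : Set E} {F : E → ℝ} (h : Test K F) (hK : IsCompact K)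
    {C : ℝ} (hC : ∀ x, |F x| ≤ C) : ‖bcf F‖ ≤ C :=
  (BoundedContinuousFunction.norm_le ((abs_nonneg _).trans (hC 0))).2 fun x => by
    rw [h.bcf_apply hK]
    exact hC x

lemma Test.exists_bound {K : Set E} {F : E → ℝ} (h : Test K F) (hK : IsCompact K) :
    ∃ C, 0 ≤ C ∧ ∀ x, |F x| ≤ C :=
  ⟨‖bcf F‖, norm_nonneg _, fun x => by
    rw [← h.bcf_apply hK]
    exact (bcf F).norm_coe_le_norm x⟩

/-- The indicator function of a compact set in `L²(Ω)`. -/
def kappa (μ : Measure E) [μ.IsAddHaarMeasure] (Ω : Set E) {K : Set E} (hK : IsCompact K) : L2 μ Ω :=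
  indicatorConstLp 2 hK.measurableSet
    ((Measure.restrict_apply_le Ω K).trans_lt hK.measure_lt_top).ne (1 : ℂ)

/-- Cutting off a bounded function outside `K`. -/
def cut (μ : Measure E) [μ.IsAddHaarMeasure] (Ω : Set E) {K : Set E} (hK : IsCompact K) :
    (E →ᵇ ℝ) →L[ℝ] L2 μ Ω :=
  ((ContinuousLinearMap.apply ℂ (L2 μ Ω) (kappa μ Ω hK)).restrictScalars ℝ).comp (mulOp μ Ω)

lemma cut_apply (μ : Measure E) [μ.IsAddHaarMeasure] (Ω : Set E) {K : Set E} (hK : IsCompact K) (m : E →ᵇ ℝ) :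
    cut μ Ω hK m = mulOp μ Ω m (kappa μ Ω hK) := rfl

lemma mulOp_cut (μ : Measure E) [μ.IsAddHaarMeasure] (Ω : Set E) {K : Set E} (hK : IsCompact K)
    (m m' : E →ᵇ ℝ) : mulOp μ Ω m (cut μ Ω hK m') = cut μ Ω hK (m * m') :=
  mulOp_mul μ Ω m m' _

lemma Test.coeFn_cut (μ : Measure E) [μ.IsAddHaarMeasure] (Ω : Set E) {K : Set E} {F : E → ℝ} (h : Test K F)
    (hK : IsCompact K) : cut μ Ω hK (bcf F) =ᵐ[μ.restrict Ω] fun x => (F x : ℂ) := by
  filter_upwards [coeFn_mulOp μ Ω (bcf F) (kappa μ Ω hK), indicatorConstLp_coeFn (p := 2)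
    (hs := hK.measurableSet)
    (hμs := ((Measure.restrict_apply_le Ω K).trans_lt hK.measure_lt_top).ne) (c := (1 : ℂ))]
    with x h1 h2
  rw [cut_apply, h1, kappa, h2, h.bcf_apply hK]
  by_cases hx : x ∈ K
  · simp [indicator_of_mem hx]
  · simp [h.eq_zero hx]

/-- Assembling a jet from its components. -/
def jetL (n : ℕ) (μ : Measure E) [μ.IsAddHaarMeasure] (Ω : Set E) {K : Set E} (hK : IsCompact K) :
    (Option (Fin n) → (E →ᵇ ℝ)) →L[ℝ] Jet n μ Ω :=
  ((PiLp.continuousLinearEquiv 2 ℝ (fun _ : Option (Fin n) => L2 μ Ω)).symm :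
    (Option (Fin n) → L2 μ Ω) →L[ℝ] Jet n μ Ω).comp
    (ContinuousLinearMap.pi fun o => (cut μ Ω hK).comp (ContinuousLinearMap.proj o))

lemma jetL_apply (μ : Measure E) [μ.IsAddHaarMeasure] (Ω : Set E) {K : Set E} (hK : IsCompact K)
    (m : Option (Fin n) → (E →ᵇ ℝ)) (o : Option (Fin n)) :
    jetL n μ Ω hK m o = cut μ Ω hK (m o) := rfl

/-- The function and its first derivatives. -/
def comps (b : OrthonormalBasis (Fin n) ℝ E) (F : E → ℝ) (o : Option (Fin n)) : E →ᵇ ℝ :=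
  o.elim (bcf F) fun i => bcf (pd b i F)

lemma coordDeriv_ofReal (b : OrthonormalBasis (Fin n) ℝ E) {F : E → ℝ} (hF : Differentiable ℝ F) (i : Fin n) :
    coordDeriv b i (fun x => (F x : ℂ)) = fun x => (pd b i F x : ℂ) := by
  funext x
  have := (Complex.ofRealCLM.hasFDerivAt.comp x (hF x).hasFDerivAt).fderiv
  unfold coordDeriv pd
  erw [this]
  rfl

lemma Test.jet_mem {μ : Measure E} [μ.IsAddHaarMeasure] {b : OrthonormalBasis (Fin n) ℝ E} {Ω D K : Set E} {F : E → ℝ} (h : Test K F) (hK : IsCompact K)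
    (hD : K ⊆ Dᶜ) : jetL n μ Ω hK (comps b F) ∈ formDomain μ b Ω D := by
  refine Submodule.le_topologicalClosure _ (Submodule.subset_span ?_)
  have hs : tsupport (fun x => (F x : ℂ)) ⊆ tsupport F :=
    closure_mono fun x hx => by simpa using hx
  refine ⟨fun x => (F x : ℂ), Complex.ofRealCLM.contDiff.comp h.smooth,
    hK.of_isClosed_subset (isClosed_tsupport _) (hs.trans h.supp), hs.trans (h.supp.trans hD),
    h.coeFn_cut μ Ω hK, fun i => ?_⟩
  rw [coordDeriv_ofReal b h.differentiable]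
  exact (h.pd b i).coeFn_cut μ Ω hK

/-- A test function as an element of `V`. -/
def jetV (μ : Measure E) [μ.IsAddHaarMeasure] (b : OrthonormalBasis (Fin n) ℝ E) (Ω D : Set E) {K : Set E} (hK : IsCompact K) (hD : K ⊆ Dᶜ)
    {F : E → ℝ} (h : Test K F) : formDomain μ b Ω D :=
  ⟨jetL n μ Ω hK (comps b F), h.jet_mem hK hD⟩

lemma comp_jetV_none (μ : Measure E) [μ.IsAddHaarMeasure] (b : OrthonormalBasis (Fin n) ℝ E) (Ω D : Set E) {K : Set E} (hK : IsCompact K) (hD : K ⊆ Dᶜ)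
    {F : E → ℝ} (h : Test K F) :
    comp μ b Ω D none (jetV μ b Ω D hK hD h) = cut μ Ω hK (bcf F) := rfl

lemma comp_jetV_some (μ : Measure E) [μ.IsAddHaarMeasure] (b : OrthonormalBasis (Fin n) ℝ E) (Ω D : Set E) {K : Set E} (hK : IsCompact K) (hD : K ⊆ Dᶜ)
    {F : E → ℝ} (h : Test K F) (i : Fin n) :
    comp μ b Ω D (some i) (jetV μ b Ω D hK hD h) = cut μ Ω hK (bcf (pd b i F)) := rfl

lemma norm_jetV_le (μ : Measure E) [μ.IsAddHaarMeasure] (b : OrthonormalBasis (Fin n) ℝ E) (Ω D : Set E) {K : Set E} (hK : IsCompact K) (hD : K ⊆ Dᶜ)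
    {F : E → ℝ} (h : Test K F) {C : ℝ} (h0 : ∀ x, |F x| ≤ C) (h1 : ∀ i x, |pd b i F x| ≤ C) :
    ‖jetV μ b Ω D hK hD h‖ ≤ ‖jetL n μ Ω hK‖ * C := by
  have hC : 0 ≤ C := (abs_nonneg _).trans (h0 0)
  have : ‖comps b F‖ ≤ C := (pi_norm_le_iff_of_nonneg hC).2 fun o => by
    cases o with
    | none => exact h.norm_bcf_le hK h0
    | some i => exact (h.pd b i).norm_bcf_le hK (h1 i)
  exact ((jetL n μ Ω hK).le_opNorm _).trans (mul_le_mul_of_nonneg_left this (norm_nonneg _))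

/-- Integration by parts against elements of `V`. -/
lemma Test.dualOf_pd {μ : Measure E} [μ.IsAddHaarMeasure] {b : OrthonormalBasis (Fin n) ℝ E} {Ω D K : Set E} {F : E → ℝ} (h : Test K F) (hK : IsCompact K)
    (hΩ : K ⊆ Ω) (i : Fin n) :
    dualOf μ b Ω D none (cut μ Ω hK (bcf (Pool.Agent.MP_954c34_an.pd b i F))) =
      -dualOf μ b Ω D (some i) (cut μ Ω hK (bcf F)) := by
  set a := cut μ Ω hK (bcf (Pool.Agent.MP_954c34_an.pd b i F)) with ha
  set c := cut μ Ω hK (bcf F) with hb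
  set L : Jet n μ Ω →L[ℂ] ℂ :=
    (innerSL ℂ a).comp (PiLp.proj 2 (fun _ : Option (Fin n) => L2 μ Ω) none) +
      (innerSL ℂ c).comp (PiLp.proj 2 (fun _ : Option (Fin n) => L2 μ Ω) (some i)) with hL
  have hker : formDomain μ b Ω D ≤ LinearMap.ker (L : Jet n μ Ω →ₗ[ℂ] ℂ) := by
    refine Submodule.topologicalClosure_minimal _ (Submodule.span_le.2 ?_) L.isClosed_ker
    rintro w ⟨φ, hφ, hφc, -, h0, h1⟩
    have hφd : Differentiable ℝ φ := hφ.differentiable (by simp)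
    have hφ' : Continuous (coordDeriv b i φ) :=
      (hφ.continuous_fderiv (by simp)).clm_apply continuous_const
    have e1 : ⟪a, w none⟫_ℂ = ∫ x, Pool.Agent.MP_954c34_an.pd b i F x • φ x ∂μ := by
      rw [← setIntegral_eq_integral_of_forall_compl_eq_zero (s := Ω), L2.inner_def]
      · refine integral_congr_ae ?_
        filter_upwards [(h.pd b i).coeFn_cut μ Ω hK, h0] with x h2 h3
        rw [ha, h2, h3]
        simp [mul_comm]
      · intro x hx
        rw [(h.pd b i).eq_zero (fun h' => hx (hΩ h')), zero_smul]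
    have e2 : ⟪c, w (some i)⟫_ℂ = ∫ x, F x • coordDeriv b i φ x ∂μ := by
      rw [← setIntegral_eq_integral_of_forall_compl_eq_zero (s := Ω), L2.inner_def]
      · refine integral_congr_ae ?_
        filter_upwards [h.coeFn_cut μ Ω hK, h1 i] with x h2 h3
        rw [hb, h2, h3]
        simp [mul_comm]
      · intro x hx
        rw [h.eq_zero (fun h' => hx (hΩ h')), zero_smul]
    have e3 := integral_smul_fderiv_eq_neg_fderiv_smul_of_integrable (μ := μ) (f := F)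
      (g := φ) (v := b i)
      (((h.pd b i).smooth.continuous.smul hφ.continuous).integrable_of_hasCompactSupport
        hφc.smul_left)
      ((h.smooth.continuous.smul hφ').integrable_of_hasCompactSupport (h.compact hK).smul_right)
      ((h.smooth.continuous.smul hφ.continuous).integrable_of_hasCompactSupport hφc.smul_left)
      (fun x _ => h.differentiable x) (fun x _ => hφd x)
    change ⟪a, w none⟫_ℂ + ⟪c, w (some i)⟫_ℂ = 0
    rw [e1, e2]
    unfold coordDeriv Pool.Agent.MP_954c34_an.pd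
    rw [e3]
    simp
  ext v
  have hv : ⟪a, comp μ b Ω D none v⟫_ℂ + ⟪c, comp μ b Ω D (some i) v⟫_ℂ = 0 := hker v.2
  have := congrArg conj hv
  rw [map_add, inner_conj_symm, inner_conj_symm, map_zero] at this
  rw [neg_apply, dualOf_apply, dualOf_apply]
  exact eq_neg_of_add_eq_zero_left this

end Pool.Agent.MP_954c34_an

end
end

section

open Set Filter Topology
open scoped ComplexConjugate Matrix

noncomputable section

namespace Pool.Agent.MP_954c34_an

variable {n : ℕ}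

/-- Kronecker delta. -/
def kron (i j : Fin n) : ℝ := if i = j then 1 else 0

lemma kron_comm (i j : Fin n) : kron i j = kron j i := by
  simp [kron, eq_comm]

lemma abs_kron_le (i j : Fin n) : |kron i j| ≤ 1 := by
  unfold kron
  split_ifs <;> simp

lemma sum_kron_mul (i : Fin n) (f : Fin n → ℝ) : ∑ j, kron i j * f j = f i := by
  simp [kron]

/-- The symmetric correction sending `e + p` to `q e - p`. -/
def corr (i₀ : Fin n) (z : (Fin n → ℝ) × ℝ) (i j : Fin n) : ℝ :=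
  ((z.2 * kron i₀ i - z.1 i) * kron i₀ j + kron i₀ i * (z.2 * kron i₀ j - z.1 j)) / (1 + z.1 i₀) -
    kron i₀ i * kron i₀ j * (∑ k, (z.2 * kron i₀ k - z.1 k) * (kron i₀ k + z.1 k)) /
      (1 + z.1 i₀) ^ 2

lemma corr_symm (i₀ : Fin n) (z : (Fin n → ℝ) × ℝ) (i j : Fin n) :
    corr i₀ z i j = corr i₀ z j i := by
  unfold corr
  ring

lemma corr_zero (i₀ : Fin n) : corr i₀ 0 = 0 := by
  funext i j
  simp [corr]

lemma sum_corr_mul (i₀ : Fin n) (z : (Fin n → ℝ) × ℝ) (hz : 1 + z.1 i₀ ≠ 0) (i : Fin n) :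
    ∑ j, corr i₀ z i j * (kron i₀ j + z.1 j) = z.2 * kron i₀ i - z.1 i := by
  set S := ∑ k, (z.2 * kron i₀ k - z.1 k) * (kron i₀ k + z.1 k) with hS
  have h1 : ∑ j, kron i₀ j * (kron i₀ j + z.1 j) = 1 + z.1 i₀ := by
    rw [sum_kron_mul]
    simp [kron]
  have h2 : ∀ j, corr i₀ z i j * (kron i₀ j + z.1 j) =
      ((z.2 * kron i₀ i - z.1 i) / (1 + z.1 i₀) - kron i₀ i * S / (1 + z.1 i₀) ^ 2) *
        (kron i₀ j * (kron i₀ j + z.1 j)) +
      (kron i₀ i / (1 + z.1 i₀)) * ((z.2 * kron i₀ j - z.1 j) * (kron i₀ j + z.1 j)) := by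
    intro j
    unfold corr
    rw [← hS]
    ring
  simp only [h2, Finset.sum_add_distrib, ← Finset.mul_sum, h1, ← hS]
  field_simp
  ring

lemma contDiffAt_corr (i₀ : Fin n) : ContDiffAt ℝ 1 (corr i₀) 0 := by
  refine contDiffAt_pi.2 fun i => contDiffAt_pi.2 fun j => ?_
  unfold corr
  refine ContDiffAt.sub (ContDiffAt.div (by fun_prop) (by fun_prop) (by simp))
    (ContDiffAt.div (by fun_prop) (by fun_prop) (by simp))

lemma exists_corr_lipschitz (i₀ : Fin n) : ∃ δ L : ℝ, 0 < δ ∧ δ < 1 ∧ 0 ≤ L ∧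
    n * (L * δ) ≤ 1 / 2 ∧ ∀ z z' : (Fin n → ℝ) × ℝ, ‖z‖ ≤ δ → ‖z'‖ ≤ δ →
      ‖corr i₀ z - corr i₀ z'‖ ≤ L * ‖z - z'‖ := by
  obtain ⟨K, t, ht, hK⟩ := (contDiffAt_corr i₀).exists_lipschitzOnWith
  obtain ⟨ε, hε, hball⟩ := Metric.nhds_basis_closedBall.mem_iff.1 ht
  set δ := min (min ε (1 / 2)) (1 / (2 * (n * K + 1))) with hδ
  have h1 : δ ≤ ε := (min_le_left _ _).trans (min_le_left _ _)
  have h2 : δ ≤ 1 / 2 := (min_le_left _ _).trans (min_le_right _ _)
  have h3 : δ ≤ 1 / (2 * (n * K + 1)) := min_le_right _ _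
  have h0 : 0 < δ := lt_min (lt_min hε (by norm_num)) (by positivity)
  refine ⟨δ, K, h0, by linarith, K.2, ?_, fun z z' hz hz' => ?_⟩
  · rw [le_div_iff₀ (by positivity)] at h3
    nlinarith
  · have := hK.dist_le_mul z (hball (by simpa using hz.trans h1)) z'
      (hball (by simpa using hz'.trans h1))
    simpa only [dist_eq_norm] using this

lemma isElliptic_of_small {S : Fin n → Fin n → ℝ} {η : ℝ} (hS : ∀ i j, |S i j| ≤ η)
    (hη : n * η ≤ 1 / 2) :
    IsElliptic (1 / 2) 2 (Matrix.of fun i j => ((kron i j + S i j : ℝ) : ℂ)) := by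
  intro ξ
  set s : Fin n → ℂ := fun i => ∑ j, (S i j : ℂ) * ξ j with hs
  set N : ℝ := ∑ i, ‖ξ i‖ ^ 2 with hN
  have hN0 : 0 ≤ N := Finset.sum_nonneg fun i _ => sq_nonneg _
  have hmul : ∀ i, ((Matrix.of fun i j => ((kron i j + S i j : ℝ) : ℂ)) *ᵥ ξ) i = ξ i + s i := by
    intro i
    simp [Matrix.mulVec, dotProduct, add_mul, Finset.sum_add_distrib, hs, kron, apply_ite]
  have hsi : ∀ i, ‖s i‖ ^ 2 ≤ η ^ 2 * (n * N) := by
    intro i
    have hη0 : 0 ≤ η := (abs_nonneg _).trans (hS i i)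
    have h1 : ‖s i‖ ≤ η * ∑ j, ‖ξ j‖ := by
      rw [Finset.mul_sum]
      refine (norm_sum_le _ _).trans (Finset.sum_le_sum fun j _ => ?_)
      rw [norm_mul, Complex.norm_real, Real.norm_eq_abs]
      exact mul_le_mul_of_nonneg_right (hS i j) (norm_nonneg _)
    have h2 : (∑ j, ‖ξ j‖) ^ 2 ≤ n * N := by
      simpa using sq_sum_le_card_mul_sum_sq (s := Finset.univ) (f := fun j => ‖ξ j‖)
    calc ‖s i‖ ^ 2 ≤ (η * ∑ j, ‖ξ j‖) ^ 2 := by gcongr
      _ = η ^ 2 * (∑ j, ‖ξ j‖) ^ 2 := by ring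
      _ ≤ η ^ 2 * (n * N) := by gcongr
  have hsum : ∑ i, ‖s i‖ ^ 2 ≤ N / 4 := by
    rcases Nat.eq_zero_or_pos n with rfl | hn
    · simp [hN]
    · have hη0 : 0 ≤ η := (abs_nonneg _).trans (hS ⟨0, hn⟩ ⟨0, hn⟩)
      calc ∑ i, ‖s i‖ ^ 2 ≤ ∑ _i : Fin n, η ^ 2 * (n * N) := Finset.sum_le_sum fun i _ => hsi i
        _ = (n * η) ^ 2 * N := by simp; ring
        _ ≤ (1 / 2) ^ 2 * N := by gcongr
        _ = N / 4 := by ring
  simp only [hmul]
  constructor
  · calc ∑ i, ‖ξ i + s i‖ ^ 2 ≤ ∑ i, (2 * ‖ξ i‖ ^ 2 + 2 * ‖s i‖ ^ 2) := by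
          refine Finset.sum_le_sum fun i _ => ?_
          calc ‖ξ i + s i‖ ^ 2 ≤ (‖ξ i‖ + ‖s i‖) ^ 2 := by gcongr; exact norm_add_le _ _
            _ ≤ _ := by nlinarith [sq_nonneg (‖ξ i‖ - ‖s i‖)]
      _ = 2 * N + 2 * ∑ i, ‖s i‖ ^ 2 := by
          rw [Finset.sum_add_distrib, ← Finset.mul_sum, ← Finset.mul_sum]
      _ ≤ 2 ^ 2 * N := by linarith
  · rw [Complex.re_sum]
    calc 1 / 2 * N ≤ 3 / 4 * N - ∑ i, ‖s i‖ ^ 2 := by linarith
      _ = ∑ i, (3 / 4 * ‖ξ i‖ ^ 2 - ‖s i‖ ^ 2) := by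
          rw [Finset.sum_sub_distrib, ← Finset.mul_sum]
      _ ≤ _ := by
          refine Finset.sum_le_sum fun i _ => ?_
          rw [add_mul, Complex.add_re, Complex.mul_conj, Complex.normSq_eq_norm_sq]
          have h1 := Complex.abs_re_le_norm (s i * conj (ξ i))
          rw [norm_mul, Complex.norm_conj] at h1
          have h2 := neg_abs_le (s i * conj (ξ i)).re
          rw [Complex.ofReal_re]
          nlinarith [sq_nonneg (‖ξ i‖ / 2 - ‖s i‖)]

end Pool.Agent.MP_954c34_an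

end
end

section

open Set Filter Topology
open scoped ContDiff

noncomputable section

namespace Pool.Agent.MP_954c34_an

variable {E : Type} [NormedAddCommGroup E] [InnerProductSpace ℝ E] [FiniteDimensional ℝ E]
  [MeasurableSpace E] [BorelSpace E] {n : ℕ}

set_option linter.unusedSectionVars false

variable {b : OrthonormalBasis (Fin n) ℝ E}

lemma pd_of_hasFDerivAt {F : E → ℝ} {L : E →L[ℝ] ℝ} {x : E}
    (h : HasFDerivAt F L x) (i : Fin n) : pd b i F x = L (b i) := by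
  rw [pd, h.fderiv]

/-- The coordinate functional. -/
def crd (b : OrthonormalBasis (Fin n) ℝ E) (i₀ : Fin n) : E →L[ℝ] ℝ := innerSL ℝ (b i₀)

lemma crd_basis (i₀ i : Fin n) : crd b i₀ (b i) = kron i₀ i := by
  simp [crd, kron, orthonormal_iff_ite.1 b.orthonormal]

lemma hasFDerivAt_coord (b : OrthonormalBasis (Fin n) ℝ E) (i₀ : Fin n) (x : E) :
    HasFDerivAt (fun x : E => crd b i₀ x) (crd b i₀) x :=
  (crd b i₀).hasFDerivAt

lemma contDiff_coord (b : OrthonormalBasis (Fin n) ℝ E) (i₀ : Fin n) :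
    ContDiff ℝ ∞ (fun x : E => crd b i₀ x) :=
  (crd b i₀).contDiff

/-- `h(x) cos (fr x₀)`. -/
def cosOsc (b : OrthonormalBasis (Fin n) ℝ E) (i₀ : Fin n) (h : E → ℝ) (fr : ℝ) (x : E) : ℝ := h x * Real.cos (fr * crd b i₀ x)

/-- `h(x) sin (fr x₀)`. -/
def sinOsc (b : OrthonormalBasis (Fin n) ℝ E) (i₀ : Fin n) (h : E → ℝ) (fr : ℝ) (x : E) : ℝ := h x * Real.sin (fr * crd b i₀ x)

lemma Test.cosOsc {K : Set E} {h : E → ℝ} (hh : Test K h) (i₀ : Fin n) (fr : ℝ) :
    Test K (cosOsc b i₀ h fr) :=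
  ⟨hh.smooth.mul (contDiff_const.mul (contDiff_coord b i₀)).cos,
    tsupport_mul_subset_left.trans hh.supp⟩

lemma Test.sinOsc {K : Set E} {h : E → ℝ} (hh : Test K h) (i₀ : Fin n) (fr : ℝ) :
    Test K (sinOsc b i₀ h fr) :=
  ⟨hh.smooth.mul (contDiff_const.mul (contDiff_coord b i₀)).sin,
    tsupport_mul_subset_left.trans hh.supp⟩

lemma Test.const_mul {K : Set E} {h : E → ℝ} (hh : Test K h) (c : ℝ) :
    Test K (fun x => c * h x) :=
  ⟨contDiff_const.mul hh.smooth, tsupport_mul_subset_right.trans hh.supp⟩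

lemma pd_const_mul {h : E → ℝ} (hh : Differentiable ℝ h) (c : ℝ) (i : Fin n) :
    pd b i (fun x => c * h x) = fun x => c * pd b i h x := by
  funext x
  rw [pd_of_hasFDerivAt ((hh x).hasFDerivAt.const_mul c)]
  simp [pd]

lemma pd_add {h h' : E → ℝ} (hh : Differentiable ℝ h) (hh' : Differentiable ℝ h')
    (i : Fin n) : pd b i (fun x => h x + h' x) = fun x => pd b i h x + pd b i h' x := by
  funext x
  rw [pd_of_hasFDerivAt ((hh x).hasFDerivAt.fun_add (hh' x).hasFDerivAt)]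
  simp [pd]

lemma pd_cosOsc {h : E → ℝ} (hh : Differentiable ℝ h) (i₀ i : Fin n) (fr : ℝ) :
    pd b i (cosOsc b i₀ h fr) = fun x =>
      cosOsc b i₀ (pd b i h) fr x + (-(fr * kron i₀ i)) * sinOsc b i₀ h fr x := by
  funext x
  have := (hh x).hasFDerivAt.fun_mul ((hasFDerivAt_coord b i₀ x).const_mul fr).cos
  unfold cosOsc
  rw [pd_of_hasFDerivAt this]
  simp [pd, sinOsc, crd_basis]
  ring

lemma pd_sinOsc {h : E → ℝ} (hh : Differentiable ℝ h) (i₀ i : Fin n) (fr : ℝ) :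
    pd b i (sinOsc b i₀ h fr) = fun x =>
      sinOsc b i₀ (pd b i h) fr x + (fr * kron i₀ i) * cosOsc b i₀ h fr x := by
  funext x
  have := (hh x).hasFDerivAt.fun_mul ((hasFDerivAt_coord b i₀ x).const_mul fr).sin
  unfold sinOsc
  rw [pd_of_hasFDerivAt this]
  simp [pd, cosOsc, crd_basis]
  ring

lemma abs_cosOsc_le {h : E → ℝ} {M : ℝ} (hM : ∀ x, |h x| ≤ M) (i₀ : Fin n) (fr : ℝ)
    (x : E) : |cosOsc b i₀ h fr x| ≤ M := by
  rw [cosOsc, abs_mul]
  exact (mul_le_of_le_one_right (abs_nonneg _) (Real.abs_cos_le_one _)).trans (hM x)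

lemma abs_sinOsc_le {h : E → ℝ} {M : ℝ} (hM : ∀ x, |h x| ≤ M) (i₀ : Fin n) (fr : ℝ)
    (x : E) : |sinOsc b i₀ h fr x| ≤ M := by
  rw [sinOsc, abs_mul]
  exact (mul_le_of_le_one_right (abs_nonneg _) (Real.abs_sin_le_one _)).trans (hM x)

lemma abs_add_mul_le {a b c A B fr : ℝ} (ha : |a| ≤ A) (hb : |b| ≤ B) (hc : |c| ≤ fr) :
    |a + c * b| ≤ A + fr * B := by
  refine (abs_add_le _ _).trans (add_le_add ha ?_)
  rw [abs_mul]
  exact mul_le_mul hc hb (abs_nonneg _) ((abs_nonneg _).trans hc)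

lemma abs_mul_kron_le {fr : ℝ} (hfr : 0 ≤ fr) (i j : Fin n) : |fr * kron i j| ≤ fr := by
  rw [abs_mul, abs_of_nonneg hfr]
  exact mul_le_of_le_one_right hfr (abs_kron_le i j)

lemma abs_pd_osc_le {h : E → ℝ} (hh : Differentiable ℝ h) {M fr : ℝ} (hfr : 1 ≤ fr)
    (h0 : ∀ x, |h x| ≤ M) {i : Fin n} (h1 : ∀ x, |pd b i h x| ≤ M) (i₀ : Fin n) (x : E) :
    |pd b i (cosOsc b i₀ h fr) x| ≤ 2 * M * fr ∧ |pd b i (sinOsc b i₀ h fr) x| ≤ 2 * M * fr := by
  have hM : 0 ≤ M := (abs_nonneg _).trans (h0 0)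
  have hk := abs_mul_kron_le (by linarith : 0 ≤ fr) i₀ i
  rw [pd_cosOsc hh, pd_sinOsc hh]
  constructor
  · refine (abs_add_mul_le (abs_cosOsc_le h1 i₀ fr x) (abs_sinOsc_le h0 i₀ fr x)
      ((abs_neg _).trans_le hk)).trans ?_
    nlinarith
  · refine (abs_add_mul_le (abs_sinOsc_le h1 i₀ fr x) (abs_cosOsc_le h0 i₀ fr x) hk).trans ?_
    nlinarith

lemma abs_pd_pd_osc_le {K : Set E} {h : E → ℝ} (hh : Test K h) {M fr : ℝ}
    (hfr : 1 ≤ fr) (h0 : ∀ x, |h x| ≤ M) (h1 : ∀ i x, |pd b i h x| ≤ M) (i₀ i : Fin n)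
    (h2 : ∀ x, |pd b i (pd b i₀ h) x| ≤ M) (x : E) :
    |pd b i (pd b i₀ (cosOsc b i₀ h fr)) x| ≤ 4 * M * fr ^ 2 ∧
      |pd b i (pd b i₀ (sinOsc b i₀ h fr)) x| ≤ 4 * M * fr ^ 2 := by
  have hM : 0 ≤ M := (abs_nonneg _).trans (h0 0)
  have hk := abs_mul_kron_le (by linarith : 0 ≤ fr) i₀ i₀
  have b1 := abs_pd_osc_le (hh.pd b i₀).differentiable hfr (h1 i₀) h2 i₀ x
  have b2 := abs_pd_osc_le hh.differentiable hfr h0 (h1 i) i₀ x
  have hle : 2 * M * fr + fr * (2 * M * fr) ≤ 4 * M * fr ^ 2 := by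
    nlinarith [mul_nonneg hM (mul_nonneg (by linarith : 0 ≤ fr) (by linarith : 0 ≤ fr - 1))]
  rw [pd_cosOsc hh.differentiable, pd_sinOsc hh.differentiable,
    pd_add ((hh.pd b i₀).cosOsc i₀ fr).differentiable ((hh.sinOsc i₀ fr).const_mul _).differentiable,
    pd_add ((hh.pd b i₀).sinOsc i₀ fr).differentiable ((hh.cosOsc i₀ fr).const_mul _).differentiable,
    pd_const_mul (hh.sinOsc i₀ fr).differentiable, pd_const_mul (hh.cosOsc i₀ fr).differentiable]
  exact ⟨(abs_add_mul_le b1.1 b2.2 (by rwa [abs_neg])).trans hle,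
    (abs_add_mul_le b1.2 b2.1 hk).trans hle⟩

lemma le_norm_pd_osc {h : E → ℝ} (hh : Differentiable ℝ h) (i₀ : Fin n) (fr : ℝ)
    (x : E) : |fr * h x| ≤
      ‖(pd b i₀ (sinOsc b i₀ h fr) x : ℂ) - Complex.I * (pd b i₀ (cosOsc b i₀ h fr) x : ℂ)‖ := by
  rw [← sq_le_sq₀ (abs_nonneg _) (norm_nonneg _), sq_abs, ← Complex.normSq_eq_norm_sq,
    Complex.normSq_apply, pd_cosOsc hh, pd_sinOsc hh]
  simp only [Complex.sub_re, Complex.ofReal_re, Complex.mul_re, Complex.I_re, Complex.I_im,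
    Complex.ofReal_im, Complex.sub_im, Complex.mul_im, cosOsc, sinOsc, kron, if_true]
  have := Real.sin_sq_add_cos_sq (fr * crd b i₀ x)
  have e : ∀ a b s c : ℝ, s ^ 2 + c ^ 2 = 1 → b ^ 2 ≤ (a * s + b * c) ^ 2 + (a * c - b * s) ^ 2 := by
    intro a b s c h
    have : (a * s + b * c) ^ 2 + (a * c - b * s) ^ 2 = (a ^ 2 + b ^ 2) * (s ^ 2 + c ^ 2) := by ring
    rw [this, h]
    nlinarith [sq_nonneg a]
  have := e (pd b i₀ h x) (fr * h x) _ _ this
  nlinarith

lemma exists_osc (b : OrthonormalBasis (Fin n) ℝ E) (i₀ : Fin n) {K : Set E} (hK : IsCompact K) {χ : E → ℝ}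
    (hχ : Test K χ) : ∃ (cc ss : ℕ → E → ℝ) (M : ℝ), 0 < M ∧
      (∀ k, Test K (cc k)) ∧ (∀ k, Test K (ss k)) ∧
      (∀ k x, |cc k x| ≤ M * (1 / 8) ^ k) ∧ (∀ k x, |ss k x| ≤ M * (1 / 8) ^ k) ∧
      (∀ k x, |pd b i₀ (cc k) x| ≤ M * (1 / 2) ^ k) ∧ (∀ k x, |pd b i₀ (ss k) x| ≤ M * (1 / 2) ^ k) ∧
      (∀ k i x, |pd b i (pd b i₀ (cc k)) x| ≤ M * (1 / 2) ^ k) ∧
      (∀ k i x, |pd b i (pd b i₀ (ss k)) x| ≤ M * (1 / 2) ^ k) ∧
      ∀ k x, |χ x| ≤ 4 ^ k * ‖(pd b i₀ (ss k) x : ℂ) - Complex.I * (pd b i₀ (cc k) x : ℂ)‖ := by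
  obtain ⟨C₀, hC₀, h0⟩ := hχ.exists_bound hK
  choose C₁ hC₁ h1 using fun i => (hχ.pd b i).exists_bound hK
  choose C₂ hC₂ h2 using fun i => ((hχ.pd b i₀).pd b i).exists_bound hK
  set M := 1 + C₀ + ∑ i, C₁ i + ∑ i, C₂ i with hM
  have s1 : 0 ≤ ∑ i, C₁ i := Finset.sum_nonneg fun i _ => hC₁ i
  have s2 : 0 ≤ ∑ i, C₂ i := Finset.sum_nonneg fun i _ => hC₂ i
  have hM0 : 0 < M := by positivity
  have g0 : ∀ x, |χ x| ≤ M := fun x => (h0 x).trans (by linarith)
  have g1 : ∀ i x, |pd b i χ x| ≤ M := fun i x => (h1 i x).trans (by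
    have := Finset.single_le_sum (fun i _ => hC₁ i) (Finset.mem_univ i)
    linarith)
  have g2 : ∀ i x, |pd b i (pd b i₀ χ) x| ≤ M := fun i x => (h2 i x).trans (by
    have := Finset.single_le_sum (fun i _ => hC₂ i) (Finset.mem_univ i)
    linarith)
  set h : ℕ → E → ℝ := fun k x => (1 / 8) ^ k * χ x with hh
  have ht : ∀ k, Test K (h k) := fun k => hχ.const_mul _
  have habs : ∀ (k : ℕ) (y : ℝ), |y| ≤ M → |(1 / 8 : ℝ) ^ k * y| ≤ M * (1 / 8) ^ k := by
    intro k y hy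
    rw [abs_mul, abs_of_pos (by positivity), mul_comm]
    gcongr
  have f0 : ∀ k x, |h k x| ≤ M * (1 / 8) ^ k := fun k x => habs k _ (g0 x)
  have f1 : ∀ k i x, |pd b i (h k) x| ≤ M * (1 / 8) ^ k := fun k i x => by
    rw [hh, pd_const_mul hχ.differentiable]
    exact habs k _ (g1 i x)
  have f2 : ∀ k i x, |pd b i (pd b i₀ (h k)) x| ≤ M * (1 / 8) ^ k := fun k i x => by
    rw [hh, pd_const_mul hχ.differentiable, pd_const_mul (hχ.pd b i₀).differentiable]
    exact habs k _ (g2 i x)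
  have hfr : ∀ k : ℕ, (1 : ℝ) ≤ 2 ^ k := fun k => one_le_pow₀ (by norm_num)
  have e2 : ∀ k : ℕ, 4 * (M * (1 / 8) ^ k) * ((2 : ℝ) ^ k) ^ 2 = 4 * M * (1 / 2) ^ k := by
    intro k
    have : (1 / 8 : ℝ) ^ k * ((2 : ℝ) ^ k) ^ 2 = (1 / 2) ^ k := by
      rw [← pow_mul, mul_comm k 2, pow_mul, ← mul_pow]
      norm_num
    rw [← this]
    ring
  have e1 : ∀ k : ℕ, 2 * (M * (1 / 8) ^ k) * (2 : ℝ) ^ k ≤ 4 * M * (1 / 2) ^ k := by
    intro k
    rw [← e2 k]
    have := hfr k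
    have h8 : 0 < M * (1 / 8) ^ k := by positivity
    nlinarith [mul_pos h8 (by linarith : (0 : ℝ) < 2 ^ k)]
  have e0 : ∀ k : ℕ, M * (1 / 8 : ℝ) ^ k ≤ 4 * M * (1 / 8) ^ k := by
    intro k
    have h8 : 0 < M * (1 / 8) ^ k := by positivity
    nlinarith
  refine ⟨fun k => cosOsc b i₀ (h k) (2 ^ k), fun k => sinOsc b i₀ (h k) (2 ^ k), 4 * M, by positivity,
    fun k => (ht k).cosOsc _ _, fun k => (ht k).sinOsc _ _,
    fun k x => (abs_cosOsc_le (f0 k) _ _ x).trans (e0 k),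
    fun k x => (abs_sinOsc_le (f0 k) _ _ x).trans (e0 k),
    fun k x => (abs_pd_osc_le (ht k).differentiable (hfr k) (f0 k) (f1 k i₀) i₀ x).1.trans (e1 k),
    fun k x => (abs_pd_osc_le (ht k).differentiable (hfr k) (f0 k) (f1 k i₀) i₀ x).2.trans (e1 k),
    fun k i x => (abs_pd_pd_osc_le (ht k) (hfr k) (f0 k) (f1 k) i₀ i (f2 k i) x).1.trans (e2 k).le,
    fun k i x => (abs_pd_pd_osc_le (ht k) (hfr k) (f0 k) (f1 k) i₀ i (f2 k i) x).2.trans (e2 k).le,
    fun k x => ?_⟩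
  have := le_norm_pd_osc (b := b) (ht k).differentiable i₀ (2 ^ k) x
  refine le_trans (le_of_eq ?_) (mul_le_mul_of_nonneg_left this (by positivity))
  have e : (4 : ℝ) ^ k * (2 ^ k * (1 / 8) ^ k) = 1 := by
    rw [← mul_pow, ← mul_pow]
    norm_num
  simp only [hh]
  rw [← mul_assoc, abs_mul, abs_of_pos (by positivity : (0 : ℝ) < 2 ^ k * (1 / 8) ^ k),
    ← mul_assoc, e, one_mul]

end Pool.Agent.MP_954c34_an

end
end

section

open MeasureTheory Set Filter Topology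
open scoped ContDiff ComplexConjugate

set_option maxSynthPendingDepth 3

noncomputable section

namespace Pool.Agent.MP_954c34_an

variable {E : Type} [NormedAddCommGroup E] [InnerProductSpace ℝ E] [FiniteDimensional ℝ E]
  [MeasurableSpace E] [BorelSpace E] {n : ℕ}

set_option linter.unusedSectionVars false

variable {b : OrthonormalBasis (Fin n) ℝ E}

lemma coordDeriv_add {φ ψ : E → ℂ} (hφ : Differentiable ℝ φ) (hψ : Differentiable ℝ ψ)
    (i : Fin n) : coordDeriv b i (φ + ψ) = coordDeriv b i φ + coordDeriv b i ψ := by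
  funext x
  simp [coordDeriv, fderiv_add (hφ x) (hψ x)]

lemma coordDeriv_smul {φ : E → ℂ} (hφ : Differentiable ℝ φ) (c : ℂ) (i : Fin n) :
    coordDeriv b i (c • φ) = c • coordDeriv b i φ := by
  funext x
  simp [coordDeriv, fderiv_const_smul (hφ x)]

/-- The test jets form a subspace. -/
def testSubmodule (μ : Measure E) (b : OrthonormalBasis (Fin n) ℝ E) (Ω D : Set E) : Submodule ℂ (Jet n μ Ω) where
  carrier := testJets μ b Ω D
  zero_mem' := ⟨0, contDiff_const, HasCompactSupport.zero, by simp,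
    Lp.coeFn_zero ℂ 2 _, fun i => by
      have : coordDeriv b i (0 : E → ℂ) = 0 := by
        funext x
        simp [coordDeriv]
      rw [this]
      exact Lp.coeFn_zero ℂ 2 _⟩
  add_mem' := by
    rintro a b ⟨φ, h1, h2, h3, h4, h5⟩ ⟨ψ, g1, g2, g3, g4, g5⟩
    refine ⟨φ + ψ, h1.add g1, h2.add g2, (tsupport_add φ ψ).trans (union_subset h3 g3),
      (Lp.coeFn_add _ _).trans (h4.add g4), fun i => ?_⟩
    rw [coordDeriv_add (h1.differentiable (by simp)) (g1.differentiable (by simp))]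
    exact (Lp.coeFn_add _ _).trans ((h5 i).add (g5 i))
  smul_mem' := by
    rintro c a ⟨φ, h1, h2, h3, h4, h5⟩
    refine ⟨c • φ, h1.const_smul c, h2.smul_left (f := fun _ => c),
      (tsupport_smul_subset_right (fun _ => c) φ).trans h3,
      (Lp.coeFn_smul c _).trans (h4.const_smul c), fun i => ?_⟩
    rw [coordDeriv_smul (h1.differentiable (by simp))]
    exact (Lp.coeFn_smul c _).trans ((h5 i).const_smul c)

lemma isFormDomain (μ : Measure E) [μ.IsAddHaarMeasure] (b : OrthonormalBasis (Fin n) ℝ E) (Ω D : Set E) :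
    IsFormDomain μ b Ω D (toH μ b Ω D) (fun i => comp μ b Ω D (some i)) where
  norm_sq v := by
    have := PiLp.norm_sq_eq_of_L2 _ (v : Jet n μ Ω)
    rw [Fintype.sum_option] at this
    exact this
  complete := (Submodule.isClosed_topologicalClosure _).completeSpace_coe
  test_mem φ hφ := by
    have hd : ∀ i, Continuous (coordDeriv b i φ) := fun i =>
      (hφ.1.continuous_fderiv (by simp)).clm_apply continuous_const
    have h0 : MemLp φ 2 (μ.restrict Ω) :=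
      (hφ.1.continuous.memLp_of_hasCompactSupport hφ.2.1).restrict Ω
    have h1 : ∀ i, MemLp (coordDeriv b i φ) 2 (μ.restrict Ω) := fun i =>
      ((hd i).memLp_of_hasCompactSupport (hφ.2.1.fderiv_apply ℝ _)).restrict Ω
    refine ⟨⟨WithLp.toLp 2 fun o => o.elim (h0.toLp _) fun i => (h1 i).toLp _,
      Submodule.le_topologicalClosure _ (Submodule.subset_span
        ⟨φ, hφ.1, hφ.2.1, hφ.2.2, h0.coeFn_toLp, fun i => (h1 i).coeFn_toLp⟩)⟩,
      h0.coeFn_toLp, fun i => (h1 i).coeFn_toLp⟩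
  test_dense := by
    rw [Subtype.dense_iff]
    have e : Submodule.span ℂ (testJets μ b Ω D) = testSubmodule μ b Ω D :=
      Submodule.span_eq (testSubmodule μ b Ω D)
    intro w hw
    have hw' : w ∈ closure (testJets μ b Ω D) := by
      have : w ∈ closure (Submodule.span ℂ (testJets μ b Ω D) : Set (Jet n μ Ω)) := hw
      rwa [e] at this
    refine closure_mono ?_ hw'
    rintro a ⟨φ, h1, h2, h3, h4, h5⟩
    exact ⟨⟨a, Submodule.le_topologicalClosure _ (Submodule.subset_span ⟨φ, h1, h2, h3, h4, h5⟩)⟩,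
      ⟨φ, ⟨h1, h2, h3⟩, h4, h5⟩, rfl⟩

end Pool.Agent.MP_954c34_an

end
end
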