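import Pool.Agent.Mg.F954c34.G481de1
import Pool.Agent.Mg.F954c34.Ge930dc

open MeasureTheory Set

namespace Pool.Agent.MP_954c34_an

theorem top {E : Type} [NormedAddCommGroup E] [InnerProductSpace ℝ E] [FiniteDimensional ℝ E]
    [MeasurableSpace E] [BorelSpace E] (μ : Measure E) [μ.IsAddHaarMeasure]
    {n : ℕ} (hn : 1 ≤ n) (b : OrthonormalBasis (Fin n) ℝ E)
    (Ω D : Set E) (hΩ : IsOpen Ω) (hne : Ω.Nonempty) (hD : D ⊆ frontier Ω) (T : ℝ) (hT : 0 < T) :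
    ∃ (V : Type) (_ : NormedAddCommGroup V) (_ : NormedSpace ℂ V)
      (val : V →L[ℂ] Lp ℂ 2 (μ.restrict Ω)) (grad : Fin n → V →L[ℂ] Lp ℂ 2 (μ.restrict Ω))
      (A : ℝ → E → Matrix (Fin n) (Fin n) ℂ) (lam Lam C : ℝ) (𝔄 : ℝ → V →L[ℂ] V →L⋆[ℂ] ℂ),
      IsFormDomain μ b Ω D val grad ∧
      (∀ i j, Measurable fun p : ℝ × E => A p.1 p.2 i j) ∧
      0 < lam ∧ lam ≤ Lam ∧ (∀ t x, IsElliptic lam Lam (A t x)) ∧
      (∀ t x i j, (A t x i j).im = 0 ∧ A t x i j = A t x j i) ∧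
      IsFormOperator μ Ω grad A 𝔄 ∧ IsHalfHolder C 𝔄 ∧
      ∃ f : ℝ → Lp ℂ 2 (μ.restrict Ω), MemL2 T f ∧ (∃ u, IsLionsSolution val T 𝔄 f u) ∧
        ∀ u, IsLionsSolution val T 𝔄 f u → ¬MemH1 T fun t => val (u t) := by
  obtain ⟨A, lam, Lam, C, 𝔄, h1, h2, h3, h4, h5, h6, h7, h8⟩ := main hn μ b Ω D hΩ hne hD T hT
  exact ⟨formDomain μ b Ω D, inferInstance, inferInstance, toH μ b Ω D,
    fun i => comp μ b Ω D (some i), A, lam, Lam, C, 𝔄, isFormDomain μ b Ω D, h1, h2, h3, h4, h5,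
    ⟨h6⟩, ⟨h7⟩, h8⟩

end Pool.Agent.MP_954c34_an
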