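import Pool.Agent.Mg.F954c34.Ge930dc
import Pool.Agent.Mg.F954c34.G20417d

section

open MeasureTheory Set Filter Topology
open scoped ContDiff ComplexConjugate InnerProductSpace BoundedContinuousFunction Matrix

set_option maxSynthPendingDepth 3

noncomputable section

namespace Pool.Agent.MP_954c34_an

variable {E : Type} [NormedAddCommGroup E] [InnerProductSpace ℝ E] [FiniteDimensional ℝ E]
  [MeasurableSpace E] [BorelSpace E] {n : ℕ}

set_option linter.unusedSectionVars false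

/-- The real part of the duality pairing. -/
def rePairing (μ : Measure E) (b : OrthonormalBasis (Fin n) ℝ E) (Ω D : Set E) : Antidual μ b Ω D →L[ℝ] formDomain μ b Ω D →L[ℝ] ℝ :=
  LinearMap.mkContinuous₂
    (LinearMap.mk₂ ℝ (fun (g : Antidual μ b Ω D) (v : formDomain μ b Ω D) => (g v).re)
      (fun g g' v => by simp) (fun c g v => by simp) (fun g v v' => by simp)
      (fun c g v => by
        rw [← algebraMap_smul ℂ c v, map_smulₛₗ]
        simp))
    1 (fun g v => by
      rw [one_mul]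
      exact (Complex.abs_re_le_norm _).trans (g.le_opNorm v))

lemma rePairing_apply (μ : Measure E) (b : OrthonormalBasis (Fin n) ℝ E) (Ω D : Set E) (g : Antidual μ b Ω D) (v : formDomain μ b Ω D) :
    rePairing μ b Ω D g v = (g v).re := rfl

/-- The embedding of `V` into `V*`. -/
def embed (μ : Measure E) (b : OrthonormalBasis (Fin n) ℝ E) (Ω D : Set E) : formDomain μ b Ω D →L[ℝ] Antidual μ b Ω D :=
  ((dualOf μ b Ω D none).comp (comp μ b Ω D none)).restrictScalars ℝ

lemma embed_apply (μ : Measure E) (b : OrthonormalBasis (Fin n) ℝ E) (Ω D : Set E) (v : formDomain μ b Ω D) :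
    embed μ b Ω D v = toAntidual (toH μ b Ω D) (toH μ b Ω D v) := rfl

lemma embed_apply_apply (μ : Measure E) (b : OrthonormalBasis (Fin n) ℝ E) (Ω D : Set E) (u v : formDomain μ b Ω D) :
    embed μ b Ω D u v = ⟪toH μ b Ω D v, toH μ b Ω D u⟫_ℂ := rfl

lemma lions_unique {μ : Measure E} {b : OrthonormalBasis (Fin n) ℝ E} {Ω D : Set E} {T : ℝ} (hT : 0 < T)
    {𝔄 : ℝ → formDomain μ b Ω D →L[ℂ] Antidual μ b Ω D}
    (h𝔄 : ∀ t u, 0 ≤ (𝔄 t u u).re ∧ ((𝔄 t u u).re ≤ 0 → 𝔄 t u = 0)) {f : ℝ → L2 μ Ω}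
    {u v : ℝ → formDomain μ b Ω D} (hu : IsLionsSolution (toH μ b Ω D) T 𝔄 f u) (hv : IsLionsSolution (toH μ b Ω D) T 𝔄 f v) :
    (fun t => toH μ b Ω D (u t)) =ᵐ[volume.restrict (Ioo 0 T)] fun t => toH μ b Ω D (v t) := by
  obtain ⟨hu1, hu2, ⟨g₁, hg₁, hu3, hu4⟩, ⟨y₁, hy₁, hy₁', hy₁''⟩⟩ := hu
  obtain ⟨hv1, hv2, ⟨g₂, hg₂, hv3, hv4⟩, ⟨y₂, hy₂, hy₂', hy₂''⟩⟩ := hv
  set w : ℝ → formDomain μ b Ω D := fun t => u t - v t with hw
  set g : ℝ → Antidual μ b Ω D := fun t => g₁ t - g₂ t with hg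
  have hwL : MemL2 T w := MemLp.sub hu1 hv1
  have hgL : MemL2 T g := MemLp.sub hg₁ hg₂
  have e : (fun t => embed μ b Ω D (w t)) =
      fun t => toAntidual (toH μ b Ω D) (toH μ b Ω D (u t)) - toAntidual (toH μ b Ω D) (toH μ b Ω D (v t)) := by
    funext t
    rw [hw, map_sub, embed_apply, embed_apply]
  have hwd : HasWeakDeriv T (fun t => embed μ b Ω D (w t)) g := by
    rw [e]
    exact hu3.sub hv3 hu2.integrableOn hg₁.integrableOn hv2.integrableOn hg₂.integrableOn
  have hw0 : VanishesAtZero T (fun t => embed μ b Ω D (w t)) := by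
    rw [e]
    refine ⟨fun t => y₁ t - y₂ t, hy₁.sub hy₂, hy₁'.sub hy₂', by simp [hy₁'', hy₂'']⟩
  have hrep := ae_eq_primitive hT hgL.integrableOn hwd hw0
  have heq : ∀ᵐ t ∂(volume.restrict (Ioo 0 T)), g t = -𝔄 t (w t) := by
    filter_upwards [hu4, hv4] with t h1 h2
    rw [hg, hw, map_sub, eq_neg_iff_add_eq_zero]
    calc g₁ t - g₂ t + (𝔄 t (u t) - 𝔄 t (v t)) = (g₁ t + 𝔄 t (u t)) - (g₂ t + 𝔄 t (v t)) := by
          abel
      _ = 0 := by rw [h1, h2, sub_self]
  have hint : IntegrableOn (fun t => rePairing μ b Ω D (g t) (w t)) (Ioo 0 T) :=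
    memLp_one_iff_integrable.1 ((rePairing μ b Ω D).memLp_of_bilin 1 hgL hwL)
  have hzero : ∀ τ ∈ Ioo 0 T, ∫ s in Ioo 0 τ, g s = 0 := by
    intro τ hτ
    have hsub : Ioo 0 τ ⊆ Ioo 0 T := Ioo_subset_Ioo_right hτ.2.le
    have h1 := energy (rePairing μ b Ω D) (embed μ b Ω D)
      (fun a a' => by
        rw [rePairing_apply, rePairing_apply, embed_apply_apply, embed_apply_apply]
        exact inner_re_symm (𝕜 := ℂ) _ _)
      (fun a => by
        rw [rePairing_apply, embed_apply_apply]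
        exact inner_self_nonneg (𝕜 := ℂ))
      hτ.2 hwL hgL hrep
    have heq' := ae_restrict_of_ae_restrict_of_subset hsub heq
    have hnn : 0 ≤ᵐ[volume.restrict (Ioo 0 τ)] fun t => -rePairing μ b Ω D (g t) (w t) := by
      filter_upwards [heq'] with t ht
      rw [ht, rePairing_apply]
      simpa using (h𝔄 t (w t)).1
    have h2 := (integral_eq_zero_iff_of_nonneg_ae hnn (hint.mono_set hsub).neg).1
      (le_antisymm (by rw [integral_neg]; linarith) (integral_nonneg_of_ae hnn))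
    refine integral_eq_zero_of_ae ?_
    filter_upwards [heq', h2] with t ht h3
    rw [ht, rePairing_apply] at h3
    rw [ht, (h𝔄 t (w t)).2 (by simpa using h3.le)]
    simp
  filter_upwards [hrep, ae_restrict_mem measurableSet_Ioo] with t h1 h2
  rw [hzero t h2] at h1
  have h3 : ⟪toH μ b Ω D (w t), toH μ b Ω D (w t)⟫_ℂ = 0 := by
    rw [← embed_apply_apply, h1]
    simp
  rw [inner_self_eq_zero, hw, map_sub, sub_eq_zero] at h3
  exact h3

end Pool.Agent.MP_954c34_an

end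
end

section

open MeasureTheory Set Filter Topology
open scoped ContDiff ComplexConjugate InnerProductSpace BoundedContinuousFunction Matrix

set_option maxSynthPendingDepth 3

noncomputable section

namespace Pool.Agent.MP_954c34_an

variable {E : Type} [NormedAddCommGroup E] [InnerProductSpace ℝ E] [FiniteDimensional ℝ E]
  [MeasurableSpace E] [BorelSpace E] {n : ℕ}

set_option linter.unusedSectionVars false

lemma exists_bumps (b : OrthonormalBasis (Fin n) ℝ E) (i₀ : Fin n) {Ω D : Set E} (hΩ : IsOpen Ω) (hne : Ω.Nonempty)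
    (hD : D ⊆ frontier Ω) : ∃ (K : Set E) (χ g : E → ℝ), IsCompact K ∧ K ⊆ Ω ∧
      K ⊆ Dᶜ ∧ Test K χ ∧ Test K g ∧ (∃ x, χ x ≠ 0) ∧
      ∀ x ∈ tsupport χ, ∀ i, pd b i g x = kron i₀ i := by
  obtain ⟨x₀, hx₀⟩ := hne
  obtain ⟨R, hR, hball⟩ := Metric.nhds_basis_closedBall.mem_iff.1 (hΩ.mem_nhds hx₀)
  let χ : ContDiffBump x₀ := ⟨R / 4, R / 3, by positivity, by linarith⟩
  let ψ : ContDiffBump x₀ := ⟨R / 2, R, by positivity, by linarith⟩
  refine ⟨Metric.closedBall x₀ R, χ, fun x => ψ x * crd b i₀ x, isCompact_closedBall _ _, hball,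
    fun x hx hxD => ?_, ⟨χ.contDiff, ?_⟩, ⟨ψ.contDiff.mul (contDiff_coord b i₀), ?_⟩, ⟨x₀, ?_⟩,
    fun x hx i => ?_⟩
  · have := hD hxD
    rw [hΩ.frontier_eq] at this
    exact this.2 (hball hx)
  · rw [χ.tsupport_eq]
    exact Metric.closedBall_subset_closedBall (by simp only [χ]; linarith)
  · exact tsupport_mul_subset_left.trans ψ.tsupport_eq.subset
  · exact (χ.pos_of_mem_ball (Metric.mem_ball_self χ.rOut_pos)).ne'
  · rw [χ.tsupport_eq] at hx
    have hx' : x ∈ Metric.ball x₀ ψ.rIn :=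
      Metric.closedBall_subset_ball (by simp only [χ, ψ]; linarith) hx
    have h1 : (fun x : E => ψ x * crd b i₀ x) =ᶠ[𝓝 x] fun x => crd b i₀ x := by
      filter_upwards [ψ.eventuallyEq_one_of_mem_ball hx'] with y hy
      simp [hy]
    rw [pd_of_hasFDerivAt ((hasFDerivAt_coord b i₀ x).congr_of_eventuallyEq h1)]
    exact crd_basis i₀ i

lemma wave_apply_eq_zero {a b : ℕ → (E →ᵇ ℝ)} (ha : Summable fun k => ‖a k‖)
    (hb : Summable fun k => ‖b k‖) {x : E} (ha' : ∀ k, a k x = 0) (hb' : ∀ k, b k x = 0)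
    (t : ℝ) : wave a b t x = 0 := by
  have := map_wave (BoundedContinuousFunction.evalCLM ℝ x) ha hb t
  simp only [BoundedContinuousFunction.evalCLM_apply, ha', hb'] at this
  rw [this]
  simp [wave, waveTerm]

/-- The coefficients built from small Hölder continuous data. -/
lemma exists_coeff (i₀ : Fin n) (P : Fin n → ℝ → (E →ᵇ ℝ)) (Q : ℝ → (E →ᵇ ℝ)) {M : ℝ}
    (hM : 0 < M) (hP : ∀ i t, ‖P i t‖ ≤ M) (hQ : ∀ t, ‖Q t‖ ≤ M)
    (hP' : ∀ i t s, ‖P i t - P i s‖ ≤ M * √|t - s|) (hQ' : ∀ t s, ‖Q t - Q s‖ ≤ M * √|t - s|)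
    (hPc : ∀ i, Continuous (P i)) (hQc : Continuous Q) :
    ∃ (ε C : ℝ) (a : ℝ → Fin n → Fin n → (E →ᵇ ℝ)), 0 < ε ∧
      (∀ i j, Continuous fun p : ℝ × E => a p.1 i j p.2) ∧
      (∀ t i j x, a t i j x = a t j i x) ∧
      (∀ t x, IsElliptic (1 / 2) 2 (Matrix.of fun i j => (a t i j x : ℂ))) ∧
      (∀ t s i j, ‖a t i j - a s i j‖ ≤ C * √|t - s|) ∧
      (∀ t x, (∀ i, P i t x = 0) → Q t x = 0 → ∀ i j, a t i j x = kron i j) ∧
      ∀ t x i, ∑ j, a t i j x * (kron i₀ j + ε * P j t x) = kron i₀ i + kron i₀ i * ε * Q t x := by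
  obtain ⟨δ, L, hδ, hδ1, hL, hnL, hlip⟩ := exists_corr_lipschitz i₀
  set ε := δ / M with hε
  have hε0 : 0 < ε := by positivity
  have hεM : ε * M = δ := by rw [hε]; field_simp
  set z : ℝ → E → (Fin n → ℝ) × ℝ := fun t x => (fun i => ε * P i t x, ε * Q t x) with hz
  have hmul : ∀ (m : E →ᵇ ℝ) (c : ℝ) (x : E), ‖m‖ ≤ c → ‖ε * m x‖ ≤ ε * c := by
    intro m c x h
    rw [norm_mul, Real.norm_of_nonneg hε0.le]
    exact mul_le_mul_of_nonneg_left ((m.norm_coe_le_norm x).trans h) hε0.le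
  have hz1 : ∀ t x, ‖z t x‖ ≤ δ := by
    intro t x
    rw [← hεM, Prod.norm_def, max_le_iff]
    exact ⟨(pi_norm_le_iff_of_nonneg (by positivity)).2 fun i => hmul _ _ x (hP i t),
      hmul _ _ x (hQ t)⟩
  have hz2 : ∀ t s x, ‖z t x - z s x‖ ≤ ε * (M * √|t - s|) := by
    intro t s x
    rw [Prod.norm_def, max_le_iff]
    refine ⟨(pi_norm_le_iff_of_nonneg (by positivity)).2 fun i => ?_, ?_⟩
    · simpa [hz, mul_sub] using hmul _ _ x (hP' i t s)
    · simpa [hz, mul_sub] using hmul _ _ x (hQ' t s)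
  have hzc : Continuous fun p : ℝ × E => z p.1 p.2 := by
    refine Continuous.prodMk (continuous_pi fun i => ?_) ?_
    · have := hPc i
      fun_prop
    · fun_prop
  have hcorr : ContinuousOn (corr i₀) (Metric.closedBall 0 δ) := by
    refine (LipschitzOnWith.of_dist_le_mul (K := ⟨L, hL⟩) fun x hx y hy => ?_).continuousOn
    rw [dist_eq_norm, dist_eq_norm]
    exact hlip x y (by simpa using hx) (by simpa using hy)
  have hcc : Continuous fun p : ℝ × E => corr i₀ (z p.1 p.2) :=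
    hcorr.comp_continuous hzc fun p => by simpa using hz1 p.1 p.2
  have hcc' : ∀ i j, Continuous fun p : ℝ × E => kron i j + corr i₀ (z p.1 p.2) i j :=
    fun i j => continuous_const.add ((continuous_apply j).comp ((continuous_apply i).comp hcc))
  have hentry : ∀ (S : Fin n → Fin n → ℝ) (i j : Fin n), |S i j| ≤ ‖S‖ := fun S i j =>
    (norm_le_pi_norm (S i) j).trans (norm_le_pi_norm S i)
  have hsmall : ∀ t x i j, |corr i₀ (z t x) i j| ≤ L * δ := by
    intro t x i j
    have := hlip (z t x) 0 (hz1 t x) (by simpa using hδ.le)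
    rw [corr_zero, sub_zero, sub_zero] at this
    exact (hentry _ i j).trans (this.trans (mul_le_mul_of_nonneg_left (hz1 t x) hL))
  refine ⟨ε, L * (ε * M), fun t i j => BoundedContinuousFunction.ofNormedAddCommGroup
    (fun x => kron i j + corr i₀ (z t x) i j)
    ((hcc' i j).comp (continuous_const.prodMk continuous_id)) (1 + L * δ)
    (fun x => (abs_add_le _ _).trans (add_le_add (abs_kron_le i j) (hsmall t x i j))), hε0,
    hcc', fun t i j x => ?_, fun t x => isElliptic_of_small (hsmall t x) hnL, fun t s i j => ?_,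
    fun t x h1 h2 i j => ?_, fun t x i => ?_⟩
  · simp only [BoundedContinuousFunction.coe_ofNormedAddCommGroup]
    rw [kron_comm, corr_symm]
  · refine (BoundedContinuousFunction.norm_le (by positivity)).2 fun x => ?_
    simp only [BoundedContinuousFunction.coe_sub, Pi.sub_apply,
      BoundedContinuousFunction.coe_ofNormedAddCommGroup, add_sub_add_left_eq_sub]
    calc _ ≤ ‖corr i₀ (z t x) - corr i₀ (z s x)‖ := hentry (corr i₀ (z t x) - corr i₀ (z s x)) i j
      _ ≤ L * ‖z t x - z s x‖ := hlip _ _ (hz1 t x) (hz1 s x)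
      _ ≤ L * (ε * (M * √|t - s|)) := mul_le_mul_of_nonneg_left (hz2 t s x) hL
      _ = _ := by ring
  · have : z t x = 0 := by
      simp only [hz, h1, h2, mul_zero]
      rfl
    simp [this, corr_zero]
  · have h1 : 1 + (z t x).1 i₀ ≠ 0 := by
      have := (norm_le_pi_norm (z t x).1 i₀).trans ((norm_fst_le (z t x)).trans (hz1 t x))
      have := neg_abs_le ((z t x).1 i₀)
      rw [Real.norm_eq_abs] at *
      linarith
    have h2 := sum_corr_mul i₀ (z t x) h1 i
    simp only [BoundedContinuousFunction.coe_ofNormedAddCommGroup, add_mul, Finset.sum_add_distrib,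
      sum_kron_mul]
    simp only [hz] at h2 ⊢
    rw [h2]
    ring

end Pool.Agent.MP_954c34_an

end
end
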